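import Mathlib

/-!
# An elementary criterion for quasi-coherence
-/

open AlgebraicGeometry CategoryTheory TopologicalSpace Opposite

universe u

namespace MP7b9e54

theorem fromSpec_image_le {X : Scheme.{u}} {U : X.Opens} (hU : IsAffineOpen U)
    (V : (Spec Γ(X, U)).Opens) : hU.fromSpec ''ᵁ V ≤ U := by
  rintro _ ⟨y, _, rfl⟩
  have : hU.fromSpec y ∈ Set.range hU.fromSpec := ⟨y, rfl⟩
  rw [hU.range_fromSpec] at this
  exact this

theorem fromSpec_image_top {X : Scheme.{u}} {U : X.Opens} (hU : IsAffineOpen U) :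
    hU.fromSpec ''ᵁ ⊤ = U := by
  rw [Scheme.Hom.image_top_eq_opensRange, hU.opensRange_fromSpec]

theorem appIso_inv_fromSpec {X : Scheme.{u}} {U : X.Opens} (hU : IsAffineOpen U)
    (V : (Spec Γ(X, U)).Opens) (r : Γ(X, U)) :
    (hU.fromSpec.appIso V).inv ((Spec Γ(X, U)).presheaf.map V.leTop.op
      ((Scheme.ΓSpecIso Γ(X, U)).inv r)) = X.presheaf.map (homOfLE (fromSpec_image_le hU V)).op r := by
  have h : (Scheme.ΓSpecIso Γ(X, U)).inv ≫ (Spec Γ(X, U)).presheaf.map V.leTop.op ≫
      (hU.fromSpec.appIso V).inv = X.presheaf.map (homOfLE (fromSpec_image_le hU V)).op := by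
    rw [← Category.assoc, Iso.comp_inv_eq, Scheme.Hom.appIso_hom, 
      Scheme.Hom.naturality_assoc, hU.fromSpec_app_self]
    simp only [Category.assoc, ← Functor.map_comp]
    rfl
  exact congr($(h).hom r)


theorem smul_fromSpec {X : Scheme.{u}} (M : X.Modules) {U : X.Opens} (hU : IsAffineOpen U)
    (V : (Spec Γ(X, U)).Opens) (r : Γ(X, U)) (x : Γ(M.restrict hU.fromSpec, V)) :
    (M.restrictAppIso hU.fromSpec V).hom (r • x) =
      X.presheaf.map (homOfLE (fromSpec_image_le hU V)).op r •
        (M.restrictAppIso hU.fromSpec V).hom x := by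
  rw [Scheme.Modules.smul_Spec_def, ← appIso_inv_fromSpec hU V r]
  rfl

/-- the two hypotheses, for opens equal to `U` and `D(f)` only propositionally -/
theorem transport1 {X : Scheme.{u}} (M : X.Modules) {U : X.Opens} (f : Γ(X, U))
    (h1 : ∀ m : Γ(M, U),
      M.presheaf.map (homOfLE (X.basicOpen_le f)).op m = 0 → ∃ n : ℕ, f ^ n • m = 0)
    (V V' : X.Opens) (hV : V = U) (hV' : V' = X.basicOpen f) (h : V' ≤ V) (m : Γ(M, V))
    (hm : M.presheaf.map (homOfLE h).op m = 0) :
    ∃ n : ℕ, X.presheaf.map (homOfLE hV.le).op f ^ n • m = 0 := by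
  subst hV' hV
  obtain ⟨n, hn⟩ := h1 m hm
  refine ⟨n, ?_⟩
  have : homOfLE (le_refl V) = 𝟙 V := rfl
  rw [this, op_id, X.presheaf.map_id]
  exact hn

theorem transport2 {X : Scheme.{u}} (M : X.Modules) {U : X.Opens} (f : Γ(X, U))
    (h2 : ∀ m' : Γ(M, X.basicOpen f),
      ∃ (n : ℕ) (m : Γ(M, U)), M.presheaf.map (homOfLE (X.basicOpen_le f)).op m =
        (X.presheaf.map (homOfLE (X.basicOpen_le f)).op f) ^ n • m')
    (V V' : X.Opens) (hV : V = U) (hV' : V' = X.basicOpen f) (h : V' ≤ V) (m' : Γ(M, V')) :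
    ∃ (n : ℕ) (m : Γ(M, V)), M.presheaf.map (homOfLE h).op m =
      X.presheaf.map (homOfLE (h.trans hV.le)).op f ^ n • m' := by
  subst hV' hV
  exact h2 m'

theorem isLocalizing_fromSpec {X : Scheme.{u}} (M : X.Modules) {U : X.Opens}
    (hU : IsAffineOpen U)
    (h1 : ∀ (f : Γ(X, U)) (m : Γ(M, U)),
      M.presheaf.map (homOfLE (X.basicOpen_le f)).op m = 0 → ∃ n : ℕ, f ^ n • m = 0)
    (h2 : ∀ (f : Γ(X, U)) (m' : Γ(M, X.basicOpen f)),
      ∃ (n : ℕ) (m : Γ(M, U)), M.presheaf.map (homOfLE (X.basicOpen_le f)).op m =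
        (X.presheaf.map (homOfLE (X.basicOpen_le f)).op f) ^ n • m') :
    IsLocalizing (modulesSpecToSheaf.obj (M.restrict hU.fromSpec)) := by
  intro f
  refine IsLocalizedModule.Away.mk_of_addCommGroup ?_ ?_ ?_
  · exact Scheme.Modules.isUnit_algebraMap_end_of_le_basicOpen f le_rfl
  · intro (x : Γ(M.restrict hU.fromSpec, PrimeSpectrum.basicOpen f))
    obtain ⟨n, m, hm⟩ := transport2 M f (h2 f) (hU.fromSpec ''ᵁ ⊤)
      (hU.fromSpec ''ᵁ (PrimeSpectrum.basicOpen f)) (fromSpec_image_top hU)
      (hU.fromSpec_image_basicOpen f) (Scheme.Hom.image_mono _ le_top)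
      ((M.restrictAppIso hU.fromSpec (PrimeSpectrum.basicOpen f)).hom x)
    refine ⟨n, (M.restrictAppIso hU.fromSpec ⊤).inv m, ?_⟩
    have h := smul_fromSpec M hU (PrimeSpectrum.basicOpen f) (f ^ n) x
    rw [map_pow] at h
    exact h.trans hm.symm
  · intro (m : Γ(M.restrict hU.fromSpec, ⊤)) hm
    obtain ⟨n, hn⟩ := transport1 M f (h1 f) (hU.fromSpec ''ᵁ ⊤)
      (hU.fromSpec ''ᵁ (PrimeSpectrum.basicOpen f)) (fromSpec_image_top hU)
      (hU.fromSpec_image_basicOpen f) (Scheme.Hom.image_mono _ le_top)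
      ((M.restrictAppIso hU.fromSpec ⊤).hom m) hm
    refine ⟨n, ?_⟩
    have h := smul_fromSpec M hU ⊤ (f ^ n) m
    rw [map_pow] at h
    exact h.trans hn


set_option backward.isDefEq.respectTransparency false in
/-- the presentation of the restriction of `M` to an affine open set -/
noncomputable def presentationFromSpec {X : Scheme.{u}} (M : X.Modules) {U : X.Opens}
    (hU : IsAffineOpen U)
    (h : IsLocalizing (modulesSpecToSheaf.obj (M.restrict hU.fromSpec))) :
    (M.restrict hU.fromSpec).Presentation := by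
  have : IsIso (M.restrict hU.fromSpec).fromTildeΓ := (isIso_fromTildeΓ_iff_isLocalizing _).mpr h
  exact SheafOfModules.Presentation.ofIsIso.{u, u, u} (M.restrict hU.fromSpec).fromTildeΓ
    (presentationTilde.{u} _ .univ (by simp) _ (Submodule.span_eq _))

set_option backward.isDefEq.respectTransparency false in
/-- from `Spec Γ(X, U)` to the slice site over `U` -/
noncomputable def presentationOver {X : Scheme.{u}} (M : X.Modules) {U : X.Opens}
    (hU : IsAffineOpen U) (P : (M.restrict hU.fromSpec).Presentation) :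
    (SheafOfModules.over M U).Presentation := by
  let P1 : ((M.restrict hU.fromSpec).restrict hU.isoSpec.hom).Presentation :=
    Scheme.Modules.presentationRestrict hU.isoSpec.hom P
  let e : (M.restrict hU.fromSpec).restrict hU.isoSpec.hom ≅ M.restrict U.ι :=
    ((Scheme.Modules.restrictFunctorComp _ _).symm ≪≫
      Scheme.Modules.restrictFunctorCongr (hU.isoSpec_hom_fromSpec)).app M
  let P2 : (M.restrict U.ι).Presentation := SheafOfModules.Presentation.ofIsIso.{u, u, u} e.hom P1
  let e2 : (Scheme.Modules.overEquiv U).functor.obj (SheafOfModules.over M U) ≅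
    M.restrict U.ι := (Scheme.Modules.overFunctorEquiv U).app M
  let P3 := SheafOfModules.Presentation.ofIsIso.{u, u, u} e2.inv P2
  let P4 := SheafOfModules.Presentation.map P3 (Scheme.Modules.overEquiv U).inverse
    (TopologicalSpace.Opens.sheafOfModulesEquivOverInverseUnit U X.ringCatSheaf).symm
  exact SheafOfModules.Presentation.ofIsIso.{u, u, u}
    ((Scheme.Modules.overEquiv U).unitIso.app (SheafOfModules.over M U)).inv P4

/-- If for every affine open `U` and `f ∈ Γ(X, U)` the sections of `M` over `D(f)` are the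
localization of the sections over `U`, then `M` is quasi-coherent. -/
theorem isQuasicoherent_of_affine {X : Scheme.{u}} (M : X.Modules)
    (h1 : ∀ (U : X.Opens), IsAffineOpen U → ∀ (f : Γ(X, U)) (m : Γ(M, U)),
      M.presheaf.map (homOfLE (X.basicOpen_le f)).op m = 0 → ∃ n : ℕ, f ^ n • m = 0)
    (h2 : ∀ (U : X.Opens), IsAffineOpen U → ∀ (f : Γ(X, U)) (m' : Γ(M, X.basicOpen f)),
      ∃ (n : ℕ) (m : Γ(M, U)), M.presheaf.map (homOfLE (X.basicOpen_le f)).op m =
        (X.presheaf.map (homOfLE (X.basicOpen_le f)).op f) ^ n • m') :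
    M.IsQuasicoherent := by
  let q : SheafOfModules.QuasicoherentData.{u, u, u, u} (R := X.ringCatSheaf) M :=
    { I := X.affineOpens
      X := fun U => U.1
      coversTop := by
        rw [Opens.coversTop_iff]
        exact iSup_affineOpens_eq_top X
      presentation := fun U => presentationOver M U.2 (presentationFromSpec M U.2
        (isLocalizing_fromSpec M U.2 (h1 U.1 U.2) (h2 U.1 U.2))) }
  exact q.isQuasicoherent

end MP7b9e54
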