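import Mathlib

/-!
# The local surjectivity lemma
-/

open AlgebraicGeometry CategoryTheory TopologicalSpace Opposite

universe u

namespace MP7b9e54

/-- The restriction map `Γ(X, V) → Γ(X, W)` of the structure sheaf, for `W ≤ V`. -/
abbrev resG {X : Scheme.{u}} {V W : X.Opens} (h : W ≤ V) : Γ(X, V) →+* Γ(X, W) :=
  (X.presheaf.map (homOfLE h).op).hom

theorem resG_resG {X : Scheme.{u}} {U V W : X.Opens} (h : V ≤ U) (h' : W ≤ V) (s : Γ(X, U)) :
    resG h' (resG h s) = resG (h'.trans h) s := by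
  simp only [resG, ← CommRingCat.comp_apply, ← Functor.map_comp]
  rfl

theorem resG_self {X : Scheme.{u}} {U : X.Opens} (s : Γ(X, U)) :
    resG (le_refl U) s = s := by
  have : (homOfLE (le_refl U)) = 𝟙 U := rfl
  simp only [resG, this, op_id, X.presheaf.map_id]
  rfl

/-- On an affine open set `W`, a section over `V = D(g)` becomes, after multiplication by a power
of `g`, the restriction of a section over `W`. -/
theorem exists_pow_mul_eq_res {X : Scheme.{u}} {W V : X.Opens} (hW : IsAffineOpen W)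
    (g : Γ(X, W)) (h : V ≤ W) (hV : V = X.basicOpen g) (m : Γ(X, V)) :
    ∃ (N : ℕ) (a : Γ(X, W)), resG h g ^ N * m = resG h a := by
  subst hV
  have := hW.isLocalization_basicOpen g
  obtain ⟨N, a, ha⟩ := IsLocalization.Away.surj g m
  refine ⟨N, a, ?_⟩
  rw [mul_comm, ← map_pow]
  rw [← map_pow] at ha
  exact ha

theorem isUnit_res_of_eq {X : Scheme.{u}} {W V : X.Opens} (hW : IsAffineOpen W)
    (g : Γ(X, W)) (h : V ≤ W) (hV : V = X.basicOpen g) : IsUnit (resG h g) := by
  subst hV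
  have := hW.isLocalization_basicOpen g
  exact IsLocalization.Away.algebraMap_isUnit (S := Γ(X, X.basicOpen g)) g

/-- Let `W` be an affine open set, `f_0, …, f_3 ∈ Γ(X, W)` such that
`W ∩ U_l = D(∏_{j ≠ l} f_j)` and `W ∩ S = D(∏ f_j)`, and assume that some `f_l` lies in the ideal
generated by the other `f_j`. Then every function on `W ∩ S` is a sum of (restrictions of)
functions on the `W ∩ U_l`. -/
theorem exists_sum_res_of_mem_span {X : Scheme.{u}} {W : X.Opens} (hW : IsAffineOpen W)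
    (f : Fin 4 → Γ(X, W)) (U : Fin 4 → X.Opens) (S : X.Opens) (hS : ∀ l, S ≤ U l)
    (hU : ∀ l, W ⊓ U l = X.basicOpen (∏ j ∈ Finset.univ.erase l, f j))
    (hWS : W ⊓ S = X.basicOpen (∏ j, f j))
    (l₀ : Fin 4) (hl : f l₀ ∈ Ideal.span (f '' {j | j ≠ l₀}))
    (m : Γ(X, W ⊓ S)) :
    ∃ n : ∀ l, Γ(X, W ⊓ U l), ∑ l, resG (inf_le_inf_left W (hS l)) (n l) = m := by
  have hWSle : W ⊓ S ≤ W := inf_le_left
  obtain ⟨N, a, ha⟩ := exists_pow_mul_eq_res hW (∏ j, f j) hWSle hWS m
  -- a power of `f l₀` lies in the ideal generated by the `f j ^ N`, `j ≠ l₀`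
  obtain ⟨M, hM⟩ : ∃ M : ℕ, f l₀ ^ M ∈
      Ideal.span (Set.range fun j => if j = l₀ then 0 else f j ^ N) := by
    have hle : Ideal.span (f '' {j | j ≠ l₀}) ≤
        (Ideal.span (Set.range fun j => if j = l₀ then 0 else f j ^ N)).radical := by
      rw [Ideal.span_le]
      rintro _ ⟨j, hj, rfl⟩
      refine ⟨N, Ideal.subset_span ⟨j, ?_⟩⟩
      have hj' : j ≠ l₀ := hj
      simp only [hj', if_false]
    exact hle hl
  obtain ⟨c, hc⟩ := (Ideal.mem_span_range_iff_exists_fun).mp hM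
  -- the pieces
  have hex : ∀ l, ∃ n : Γ(X, W ⊓ U l), l ≠ l₀ →
      n * (resG (inf_le_left : W ⊓ U l ≤ W) (∏ j ∈ Finset.univ.erase l, f j) ^ N *
        resG (inf_le_left : W ⊓ U l ≤ W) (f l₀) ^ M) =
        resG (inf_le_left : W ⊓ U l ≤ W) (a * c l) := by
    intro l
    by_cases hne : l = l₀
    · exact ⟨0, fun h => absurd hne h⟩
    · have hu1 : IsUnit (resG (inf_le_left : W ⊓ U l ≤ W) (∏ j ∈ Finset.univ.erase l, f j)) :=
        isUnit_res_of_eq hW _ _ (hU l)
      have hdvd : f l₀ ∣ ∏ j ∈ Finset.univ.erase l, f j :=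
        Finset.dvd_prod_of_mem f (Finset.mem_erase.mpr ⟨fun h => hne h.symm, Finset.mem_univ _⟩)
      have hu2 : IsUnit (resG (inf_le_left : W ⊓ U l ≤ W) (f l₀)) :=
        isUnit_of_dvd_unit (map_dvd _ hdvd) hu1
      obtain ⟨v, hv⟩ := (hu1.pow N).mul (hu2.pow M)
      refine ⟨resG (inf_le_left : W ⊓ U l ≤ W) (a * c l) * (v⁻¹ : _ˣ).1, fun _ => ?_⟩
      rw [← hv, mul_assoc, Units.inv_mul, mul_one]
  choose n hn using hex
  refine ⟨fun l => if l = l₀ then 0 else n l, ?_⟩
  have huF : IsUnit (resG hWSle (∏ j, f j)) := isUnit_res_of_eq hW _ _ hWS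
  have hul : IsUnit (resG hWSle (f l₀)) :=
    isUnit_of_dvd_unit (map_dvd _ (Finset.dvd_prod_of_mem f (Finset.mem_univ _))) huF
  have hu : IsUnit (resG hWSle (∏ j, f j) ^ N * resG hWSle (f l₀) ^ M) := (huF.pow N).mul (hul.pow M)
  refine hu.mul_right_cancel ?_
  have key : ∀ l, resG (inf_le_inf_left W (hS l)) (if l = l₀ then 0 else n l) *
      (resG hWSle (∏ j, f j) ^ N * resG hWSle (f l₀) ^ M) =
      resG hWSle (a * (c l * if l = l₀ then 0 else f l ^ N)) := by
    intro l
    by_cases hne : l = l₀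
    · simp only [hne, if_true, map_zero, zero_mul, mul_zero]
    · simp only [hne, if_false]
      have h1 := congrArg (resG (inf_le_inf_left W (hS l))) (hn l hne)
      rw [map_mul, map_mul, map_pow, map_pow, resG_resG, resG_resG, resG_resG] at h1
      have h2 : (∏ j, f j) = f l * ∏ j ∈ Finset.univ.erase l, f j :=
        (Finset.mul_prod_erase Finset.univ f (Finset.mem_univ l)).symm
      rw [h2, map_mul, mul_pow]
      calc _ = resG hWSle (f l) ^ N * (resG (inf_le_inf_left W (hS l)) (n l) *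
            (resG hWSle (∏ j ∈ Finset.univ.erase l, f j) ^ N * resG hWSle (f l₀) ^ M)) := by ring
        _ = resG hWSle (f l) ^ N * resG hWSle (a * c l) := by rw [h1]
        _ = _ := by
          rw [← map_pow, ← map_mul]
          congr 1
          ring
  rw [Finset.sum_mul, Finset.sum_congr rfl fun l _ => key l, ← map_sum, ← Finset.mul_sum, hc,
    map_mul, ← ha, map_pow]
  ring

end MP7b9e54
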