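import Pool.Agent.Lib.MP_7b9e54_ag.KMod
import Pool.Agent.Lib.MP_7b9e54_ag.Bridge
import Pool.Agent.Lib.MP_7b9e54_ag.Local

/-!
# Quasi-coherence of `𝒦`
-/

open AlgebraicGeometry CategoryTheory TopologicalSpace Opposite

universe u

namespace MP7b9e54

section

variable {X : Scheme.{u}} {V A : X.Opens} (hVA : IsAffineOpen (V ⊓ A)) (f : Γ(X, V))

theorem basicOpen_resG_eq :
    X.basicOpen (resG (inf_le_left : V ⊓ A ≤ V) f) = X.basicOpen f ⊓ A := by
  rw [resG, Scheme.basicOpen_res]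
  apply le_antisymm
  · exact le_inf inf_le_right (inf_le_left.trans inf_le_right)
  · exact le_inf (inf_le_inf_right A (X.basicOpen_le f)) inf_le_left

include hVA in
theorem loc_zeroG (m : Γ(X, V ⊓ A))
    (h : resG (inf_le_inf_right A (X.basicOpen_le f)) m = 0) :
    ∃ n : ℕ, (resG (inf_le_left : V ⊓ A ≤ V) f) ^ n * m = 0 := by
  refine exists_pow_mul_eq_zero_of_res_basicOpen_eq_zero_of_isAffineOpen X hVA m
    (resG inf_le_left f) ?_
  have h1 : X.basicOpen (resG (inf_le_left : V ⊓ A ≤ V) f) ≤ X.basicOpen f ⊓ A :=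
    (basicOpen_resG_eq f).le
  have h2 := congrArg (resG h1) h
  rw [resG_resG, map_zero] at h2
  exact h2

include hVA in
theorem loc_extG (m : Γ(X, X.basicOpen f ⊓ A)) :
    ∃ (n : ℕ) (y : Γ(X, V ⊓ A)), resG (inf_le_inf_right A (X.basicOpen_le f)) y =
      (resG (inf_le_left.trans (X.basicOpen_le f)) f) ^ n * m := by
  have h1 : X.basicOpen (resG (inf_le_left : V ⊓ A ≤ V) f) ≤ X.basicOpen f ⊓ A :=
    (basicOpen_resG_eq f).le
  have h2 : X.basicOpen f ⊓ A ≤ X.basicOpen (resG (inf_le_left : V ⊓ A ≤ V) f) :=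
    (basicOpen_resG_eq f).ge
  obtain ⟨n, y, hy⟩ := exists_eq_pow_mul_of_isAffineOpen X (V ⊓ A) hVA
    (resG inf_le_left f) (resG h1 m)
  refine ⟨n, y, ?_⟩
  have h3 := congrArg (resG h2) hy
  change resG h2 (resG (X.basicOpen_le _) y) = resG h2 ((resG (X.basicOpen_le _) (resG _ f)) ^ n * _) at h3
  rw [resG_resG, map_mul, map_pow, resG_resG, resG_resG, resG_resG, resG_self] at h3
  exact h3

end

section

variable {X : Scheme.{u}} {V A : X.Opens} (hVA : IsAffineOpen (V ⊓ A)) (f : O X V)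

include hVA in
theorem loc_zero (m : O X (V ⊓ A))
    (h : res (inf_le_inf_right A (X.basicOpen_le f)) m = 0) :
    ∃ n : ℕ, (res (inf_le_left : V ⊓ A ≤ V) f) ^ n * m = 0 := loc_zeroG hVA f m h

include hVA in
theorem loc_ext (m : O X (X.basicOpen f ⊓ A)) :
    ∃ (n : ℕ) (y : O X (V ⊓ A)), res (inf_le_inf_right A (X.basicOpen_le f)) y =
      (res (inf_le_left.trans (X.basicOpen_le f)) f) ^ n * m := loc_extG hVA f m

end

variable {p : ℕ} {X : Scheme.{u}} {ι : Type} [Fintype ι] {U : ι → X.Opens} {S : X.Opens}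
  (hS : ∀ l, S ≤ U l)

theorem mulOp_smul_apply {V : X.Opens} (f : O X V) (m : KSec X U S hS V) (l : ι) :
    (mulOp p X V f • m).1 l = res inf_le_left f * m.1 l := rfl

theorem K_zero {V : X.Opens} (hU : ∀ l, IsAffineOpen (V ⊓ U l)) (f : O X V)
    (m : KSec X U S hS V) (h : KRes X U S hS (X.basicOpen_le f) m = 0) :
    ∃ n : ℕ, mulOp p X V (f ^ n) • m = 0 := by
  have h1 : ∀ l, ∃ n : ℕ, (res (inf_le_left : V ⊓ U l ≤ V) f) ^ n * m.1 l = 0 := fun l =>
    loc_zero (hU l) f (m.1 l) (congrArg (fun a : KSec X U S hS _ => a.1 l) h)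
  choose n hn using h1
  refine ⟨∑ l, n l, ?_⟩
  apply Subtype.ext
  funext l
  rw [mulOp_smul_apply]
  have h2 : ∑ l, n l = (∑ l, n l - n l) + n l :=
    (Nat.sub_add_cancel (Finset.single_le_sum (fun _ _ => Nat.zero_le _) (Finset.mem_univ l))).symm
  rw [h2, pow_add, map_mul, mul_assoc, map_pow _ _ (n l), hn l, mul_zero]
  rfl

theorem K_ext {V : X.Opens} (hU : ∀ l, IsAffineOpen (V ⊓ U l)) (hVS : IsAffineOpen (V ⊓ S))
    (f : O X V) (m : KSec X U S hS (X.basicOpen f)) :
    ∃ (n : ℕ) (y : KSec X U S hS V), KRes X U S hS (X.basicOpen_le f) y =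
      mulOp p X (X.basicOpen f) (res (X.basicOpen_le f) f ^ n) • m := by
  have h1 : ∀ l, ∃ (n : ℕ) (y : O X (V ⊓ U l)),
      res (inf_le_inf_right (U l) (X.basicOpen_le f)) y =
      (res (inf_le_left.trans (X.basicOpen_le f)) f) ^ n * m.1 l := fun l =>
    loc_ext (hU l) f (m.1 l)
  choose n y hy using h1
  -- common exponent
  let N := ∑ l, n l
  have hN : ∀ l, N = (N - n l) + n l := fun l =>
    (Nat.sub_add_cancel (Finset.single_le_sum (fun _ _ => Nat.zero_le _) (Finset.mem_univ l))).symm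
  let w : FSec X U V := fun l => (res inf_le_left f) ^ (N - n l) * y l
  have hw : ∀ l, res (inf_le_inf_right (U l) (X.basicOpen_le f)) (w l) =
      (res (inf_le_left.trans (X.basicOpen_le f)) f) ^ N * m.1 l := by
    intro l
    change res _ ((res inf_le_left f) ^ (N - n l) * y l) = _
    rw [map_mul, hy l, map_pow, res_res, ← mul_assoc, ← pow_add, ← hN l]
  have hw2 : res (inf_le_inf_right S (X.basicOpen_le f)) (psi X U S hS V w) = 0 := by
    rw [← psi_FRes X U S hS (X.basicOpen_le f) w, psi_apply]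
    have h3 : ∀ l, res (inf_le_inf_left (X.basicOpen f) (hS l)) (FRes X U (X.basicOpen_le f) w l) =
        (res (inf_le_left.trans (X.basicOpen_le f)) f) ^ N *
          res (inf_le_inf_left (X.basicOpen f) (hS l)) (m.1 l) := by
      intro l
      change res _ (res _ (w l)) = _
      rw [hw l, map_mul, map_pow, res_res]
    rw [Finset.sum_congr rfl fun l _ => h3 l, ← Finset.mul_sum]
    have h4 := m.2
    rw [AddMonoidHom.mem_ker, psi_apply] at h4
    rw [h4, mul_zero]
  obtain ⟨n', hn'⟩ := loc_zero hVS f _ hw2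
  refine ⟨n' + N, ⟨fun l => (res inf_le_left f) ^ n' * w l, ?_⟩, ?_⟩
  · rw [AddMonoidHom.mem_ker, psi_apply]
    rw [psi_apply, Finset.mul_sum] at hn'
    rw [← hn']
    refine Finset.sum_congr rfl fun l _ => ?_
    rw [map_mul, map_pow, res_res]
  · apply Subtype.ext
    funext l
    rw [KRes_apply, mulOp_smul_apply]
    change res _ ((res inf_le_left f) ^ n' * w l) = _
    rw [map_mul, hw l, map_pow, map_pow, res_res, res_res, ← mul_assoc, ← pow_add]

/-- `𝒦` is quasi-coherent. -/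
theorem KMod_isQCoh (hUaff : ∀ (V : X.Opens), IsAffineOpen V → ∀ l, IsAffineOpen (V ⊓ U l))
    (hSaff : ∀ (V : X.Opens), IsAffineOpen V → IsAffineOpen (V ⊓ S)) :
    IsQCoh (KMod p X U S hS) := by
  refine isQuasicoherent_of_affine _ ?_ ?_
  · intro V hV f m hm
    obtain ⟨n, hn⟩ := K_zero (p := p) hS (hUaff V hV) f m hm
    exact ⟨n, hn⟩
  · intro V hV f m
    obtain ⟨n, y, hy⟩ := K_ext (p := p) hS (hUaff V hV) (hSaff V hV) f m
    exact ⟨n, y, hy⟩

end MP7b9e54
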