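import Pool.Agent.Lib.MP_7b9e54_ag.Coh
import Pool.Agent.Lib.MP_7b9e54_ag.KQC

/-!
# An abstract criterion for non-`𝒟`-affinity
-/

open AlgebraicGeometry CategoryTheory TopologicalSpace Opposite Limits

universe u

namespace MP7b9e54

theorem not_isDAffine (p : ℕ) (X : Scheme.{u}) [X.IsSeparated] {ι : Type} [Fintype ι]
    (U : ι → X.Opens) (S : X.Opens) (hS : ∀ l, S ≤ U l)
    (hU : ∀ l, IsAffineOpen (U l)) (hSa : IsAffineOpen S)
    (hloc : LocSurj X U S hS) (θ : O X (⊤ ⊓ S)) (hθ : ∀ n : FSec X U ⊤, psi X U S hS ⊤ n ≠ θ) :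
    ∃ M : DMod p X, IsQCoh M ∧ ¬ Subsingleton (cohomology M 1) := by
  refine ⟨KMod p X U S hS, KMod_isQCoh hS (fun V hV l => hV.inf (hU l)) (fun V hV => hV.inf hSa),
    fun h1 => ?_⟩
  have h2 : Subsingleton (Sheaf.H (KSh X U S hS) 1) := h1
  obtain ⟨n, hn⟩ := surjective_of_H1 X U S hS hloc h2 θ
  exact hθ n hn

end MP7b9e54
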