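import Pool.Agent.Lib.MP_7b9e54_ag.KMod

/-!
# The cohomological step: `H¹(X, 𝒦) = 0` and local surjectivity imply surjectivity on global
sections.
-/

open AlgebraicGeometry CategoryTheory TopologicalSpace Opposite Limits Abelian

universe u

namespace MP7b9e54

variable (X : Scheme.{u}) {ι : Type} [Fintype ι] (U : ι → X.Opens) (S : X.Opens)
  (hS : ∀ l, S ≤ U l)

/-- the abelian presheaf `⨁ 𝒪_{U_l}` -/
def FPre : (Opens X)ᵒᵖ ⥤ Ab.{u} where
  obj V := AddCommGrpCat.of (FSec X U V.unop)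
  map i := AddCommGrpCat.ofHom (FRes X U i.unop.le)
  map_id V := by
    ext m l
    exact res_self (X := X) (m l)
  map_comp i j := by
    ext m l
    exact (res_res (X := X) _ _ (m l)).symm

omit [Fintype ι] in
theorem FPre_isSheaf : TopCat.Presheaf.IsSheaf (FPre X U) := by
  rw [TopCat.Presheaf.isSheaf_iff_isSheafUniqueGluing]
  intro κ V (s : ∀ i, FSec X U (V i)) hs
  have hs' : ∀ i j, FRes X U (inf_le_left : V i ⊓ V j ≤ V i) (s i) =
    FRes X U (inf_le_right : V i ⊓ V j ≤ V j) (s j) := hs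
  have key : ∀ l, ∃ t : O X (iSup V ⊓ U l), ∀ i,
      res (inf_le_inf_right (U l) (le_iSup V i)) t = s i l := by
    intro l
    refine res_glue_inf X V (U l) (fun i => s i l) fun i j => ?_
    exact congrArg (fun a : FSec X U (V i ⊓ V j) => a l) (hs' i j)
  choose t ht using key
  refine ⟨(t : FSec X U (iSup V)), ?_, ?_⟩
  · intro i
    change FRes X U (le_iSup V i) t = s i
    funext l
    exact ht l i
  · intro (t' : FSec X U (iSup V)) ht'
    have ht'' : ∀ i, FRes X U (le_iSup V i) t' = s i := ht'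
    change t' = t
    funext l
    refine res_ext_inf X V (U l) _ _ fun i => ?_
    rw [ht l i, ← ht'' i]
    rfl

/-- the sheaf `⨁ 𝒪_{U_l}` -/
noncomputable def FSh : Sheaf (Opens.grothendieckTopology X) AddCommGrpCat.{u} :=
  ⟨FPre X U, FPre_isSheaf X U⟩

/-- the sheaf `𝒦` -/
noncomputable def KSh : Sheaf (Opens.grothendieckTopology X) AddCommGrpCat.{u} :=
  ⟨KPre X U S hS, KPre_isSheaf X U S hS⟩

/-- the sheaf `𝒪_S` -/
noncomputable def GSh : Sheaf (Opens.grothendieckTopology X) AddCommGrpCat.{u} :=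
  FSh X (fun _ : Unit => S)

/-- `𝒦 → ⨁ 𝒪_{U_l}` -/
noncomputable def iotaSh : KSh X U S hS ⟶ FSh X U where
  hom :=
    { app := fun V => AddCommGrpCat.ofHom (psi X U S hS V.unop).ker.subtype
      naturality := fun _ _ _ => rfl }

/-- `⨁ 𝒪_{U_l} → 𝒪_S` -/
noncomputable def piSh : FSh X U ⟶ GSh X S where
  hom :=
    { app := fun V => AddCommGrpCat.ofHom (AddMonoidHom.mk' (M := FSec X U V.unop)
        (G := FSec X (fun _ : Unit => S) V.unop)
        (fun m _ => psi X U S hS V.unop m) (fun a b => by funext l; exact map_add _ a b))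
      naturality := fun V W i => by
        ext m
        funext l
        exact psi_FRes X U S hS i.unop.le m }

theorem iota_pi : iotaSh X U S hS ≫ piSh X U S hS = 0 := by
  apply Sheaf.hom_ext
  ext V m
  funext l
  exact m.2

/-- the short complex `𝒦 → ⨁ 𝒪_{U_l} → 𝒪_S` -/
noncomputable def kerSC : ShortComplex (Sheaf (Opens.grothendieckTopology X) AddCommGrpCat.{u}) :=
  ShortComplex.mk (iotaSh X U S hS) (piSh X U S hS) (iota_pi X U S hS)

/-- lifting property of the kernel, on sections -/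
noncomputable def kerLift {W : Sheaf (Opens.grothendieckTopology X) AddCommGrpCat.{u}}
    (g : W ⟶ FSh X U) (hg : g ≫ piSh X U S hS = 0) : W ⟶ KSh X U S hS where
  hom :=
    { app := fun V => AddCommGrpCat.ofHom
        ((g.hom.app V).hom.codRestrict (psi X U S hS V.unop).ker (fun w => by
          have h := congrArg (fun φ : W ⟶ GSh X S => (φ.hom.app V).hom w) hg
          exact congrFun h ()))
      naturality := fun V W i => by
        ext w
        apply Subtype.ext
        exact congrArg (fun φ => φ.hom w) (g.hom.naturality i) }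

/-- `𝒦` is the kernel of `⨁ 𝒪_{U_l} → 𝒪_S` in the category of abelian sheaves -/
noncomputable def kerIsLimit :
    IsLimit (KernelFork.ofι (iotaSh X U S hS) (iota_pi X U S hS)) :=
  KernelFork.IsLimit.ofι _ _ (fun g hg => kerLift X U S hS g hg)
    (fun g hg => rfl)
    (fun g hg m hm => by
      apply Sheaf.hom_ext
      ext V w
      apply Subtype.ext
      have h := congrArg (fun φ : _ ⟶ FSh X U => (φ.hom.app V).hom w) hm
      exact h)

theorem kerSC_exact : (kerSC X U S hS).Exact ∧ Mono (kerSC X U S hS).f :=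
  (kerSC X U S hS).exact_and_mono_f_iff_f_is_kernel.mpr ⟨kerIsLimit X U S hS⟩

/-- local surjectivity of `⨁ 𝒪_{U_l} → 𝒪_S` -/
def LocSurj : Prop :=
  ∀ (V : X.Opens) (m : O X (V ⊓ S)), ∀ x ∈ V, ∃ (W : X.Opens) (h : W ≤ V), x ∈ W ∧
    ∃ n : FSec X U W, psi X U S hS W n = res (inf_le_inf_right S h) m

theorem epi_of_locSurj (h : LocSurj X U S hS) : Epi (piSh X U S hS) := by
  refine (TopCat.Sheaf.isLocallySurjective_iff_epi (C := AddCommGrpCat.{u})
    (F := FSh X U) (G := GSh X S) (piSh X U S hS)).mp ?_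
  rw [TopCat.Presheaf.isLocallySurjective_iff]
  intro V (m : FSec X (fun _ : Unit => S) V) x hx
  obtain ⟨W, hW, hxW, n, hn⟩ := h V (m ()) x hx
  refine ⟨W, hW, ⟨n, ?_⟩, hxW⟩
  funext l
  exact hn

/-- If `H¹(X, 𝒦) = 0` and `⨁ 𝒪_{U_l} → 𝒪_S` is locally surjective then it is surjective on
global sections. -/
theorem surjective_of_H1 (h : LocSurj X U S hS) (hH : Subsingleton (Sheaf.H (KSh X U S hS) 1))
    (θ : O X (⊤ ⊓ S)) : ∃ n : FSec X U ⊤, psi X U S hS ⊤ n = θ := by
  have hepi := epi_of_locSurj X U S hS h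
  have hex : (kerSC X U S hS).ShortExact :=
    { exact := (kerSC_exact X U S hS).1
      mono_f := (kerSC_exact X U S hS).2
      epi_g := hepi }
  have hT : IsTerminal (⊤ : Opens X) := isTerminalTop
  let x₃ : Sheaf.H (GSh X S) 0 := (Sheaf.H.equiv₀ (GSh X S) hT).symm (fun _ => θ)
  obtain ⟨x₂, hx₂⟩ := Ext.covariant_sequence_exact₃ _ hex x₃ (n₁ := 1) rfl
    (Subsingleton.elim (α := Sheaf.H (KSh X U S hS) 1) _ _)
  refine ⟨Sheaf.H.equiv₀ (FSh X U) hT x₂, ?_⟩
  have h1 := Sheaf.H.equiv₀_naturality (T := (⊤ : Opens X)) hT (piSh X U S hS) x₂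
  have h2 : Sheaf.H.map (piSh X U S hS) 0 x₂ = x₃ := hx₂
  rw [h2] at h1
  have h3 : Sheaf.H.equiv₀ (GSh X S) hT x₃ = fun _ => θ := AddEquiv.apply_symm_apply _ _
  rw [h3] at h1
  exact congrFun h1 ()

end MP7b9e54
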