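import Mathlib

/-!
# Differential operators in characteristic `p`, `D`-modules, `D`-affinity

Definitions for problem MP_7b9e54_ag.

* `O X U`: the ring of functions on the open set `U` of the scheme `X`;
* `D p X U`: the ring of differential operators on `U`, where
  `𝒟_X = ⋃_e ℰnd_{𝒪_X^{p^e}}(𝒪_X)`; `diffSheaf p X`: the sheaf of rings `𝒟_X`;
* `DMod p X`: (left) `𝒟_X`-modules;
* `IsDAffine p X`: `X` is `𝒟`-affine.
-/

open AlgebraicGeometry CategoryTheory TopologicalSpace Opposite

universe u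

namespace MP7b9e54

/-! ### Functions -/

/-- The ring of functions `Γ(X, U)`. -/
def O (X : Scheme.{u}) (U : X.Opens) : Type u := Γ(X, U)

instance instCommRingO (X : Scheme.{u}) (U : X.Opens) : CommRing (O X U) :=
  (X.presheaf.obj (op U)).commRing

/-- The restriction map `Γ(X, V) → Γ(X, W)` of the structure sheaf, for `W ≤ V`. -/
def res {X : Scheme.{u}} {V W : X.Opens} (h : W ≤ V) : O X V →+* O X W :=
  (X.presheaf.map (homOfLE h).op).hom

theorem map_map_sec {X : Scheme.{u}} {U V W : X.Opens} (h : V ≤ U) (h' : W ≤ V) (s : Γ(X, U)) :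
    (X.presheaf.map (homOfLE h').op).hom ((X.presheaf.map (homOfLE h).op).hom s) =
      (X.presheaf.map (homOfLE (h'.trans h)).op).hom s := by
  rw [← CommRingCat.comp_apply, ← Functor.map_comp]
  rfl

theorem res_res {X : Scheme.{u}} {U V W : X.Opens} (h : V ≤ U) (h' : W ≤ V) (s : O X U) :
    res h' (res h s) = res (h'.trans h) s :=
  map_map_sec h h' s

theorem map_self_sec {X : Scheme.{u}} {U : X.Opens} (s : Γ(X, U)) :
    (X.presheaf.map (homOfLE (le_refl U)).op).hom s = s := by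
  have : (homOfLE (le_refl U)) = 𝟙 U := rfl
  rw [this, op_id, X.presheaf.map_id]
  rfl

theorem res_self {X : Scheme.{u}} {U : X.Opens} (s : O X U) :
    res (le_refl U) s = s := map_self_sec s

/-! ### Differential operators -/

/-- Families of additive maps `Γ(X, V) → Γ(X, V)`, one for every open `V ≤ U`. -/
def Fam (X : Scheme.{u}) (U : X.Opens) : Type u :=
  ∀ V : {V : X.Opens // V ≤ U}, AddMonoid.End (O X V.1)

/-- The ring structure on families: pointwise addition and composition. -/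
instance instRingFam (X : Scheme.{u}) (U : X.Opens) : Ring (Fam X U) :=
  Pi.ring (f := fun V : {V : X.Opens // V ≤ U} => AddMonoid.End (O X V.1))

/-- The component of a family at `V ≤ U`. -/
def Fam.at {X : Scheme.{u}} {U : X.Opens} (δ : Fam X U) (V : X.Opens) (hV : V ≤ U) :
    AddMonoid.End (O X V) := δ ⟨V, hV⟩

/-- The family `δ` is compatible with restriction: it is an endomorphism of the abelian sheaf
`𝒪_U`. -/
def IsCompat {X : Scheme.{u}} {U : X.Opens} (δ : Fam X U) : Prop :=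
  ∀ (V W : X.Opens) (hV : V ≤ U) (h : W ≤ V) (s : O X V),
    δ.at W (h.trans hV) (res h s) = res h (δ.at V hV s)

/-- The family `δ` is linear over `q`-th powers of functions on the open set `V`. -/
def IsPowLinear {X : Scheme.{u}} {U : X.Opens} (q : ℕ) (δ : Fam X U) (V : X.Opens)
    (hV : V ≤ U) : Prop :=
  ∀ (W : X.Opens) (hW : W ≤ V) (a b : O X W),
    δ.at W (hW.trans hV) (a ^ q * b) = a ^ q * δ.at W (hW.trans hV) b

/-- Differential operators on `U`: endomorphisms of the abelian sheaf `𝒪_U` such that, locally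
on `U`, there is an `e` for which they are linear over `𝒪^{p^e}`. -/
def IsDiffOp (p : ℕ) {X : Scheme.{u}} {U : X.Opens} (δ : Fam X U) : Prop :=
  IsCompat δ ∧ ∀ x ∈ U, ∃ (V : X.Opens) (hV : V ≤ U), x ∈ V ∧ ∃ e : ℕ, IsPowLinear (p ^ e) δ V hV

section subring

variable {p : ℕ} {X : Scheme.{u}} {U : X.Opens} {δ ε : Fam X U}

theorem IsPowLinear.mono {V W : X.Opens} {hV : V ≤ U} {e : ℕ}
    (h : IsPowLinear (p ^ e) δ V hV) (hW : W ≤ V) (e' : ℕ) :
    IsPowLinear (p ^ (e' + e)) δ W (hW.trans hV) := by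
  intro W' hW' a b
  have e1 : a ^ p ^ (e' + e) = (a ^ p ^ e') ^ p ^ e := by rw [pow_add, pow_mul]
  rw [e1]
  exact h W' (hW'.trans hW) _ _

theorem IsDiffOp.common (h : IsDiffOp p δ) (h' : IsDiffOp p ε) (x : X) (hx : x ∈ U) :
    ∃ (V : X.Opens) (hV : V ≤ U), x ∈ V ∧ ∃ e : ℕ,
      IsPowLinear (p ^ e) δ V hV ∧ IsPowLinear (p ^ e) ε V hV := by
  obtain ⟨V, hV, hxV, e, he⟩ := h.2 x hx
  obtain ⟨V', hV', hxV', e', he'⟩ := h'.2 x hx
  refine ⟨V ⊓ V', inf_le_left.trans hV, ⟨hxV, hxV'⟩, e + e', ?_, ?_⟩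
  · rw [add_comm]
    exact he.mono inf_le_left e'
  · exact he'.mono inf_le_right e

theorem IsDiffOp.mul (h : IsDiffOp p δ) (h' : IsDiffOp p ε) : IsDiffOp p (δ * ε) := by
  refine ⟨fun V W hV hW s => ?_, fun x hx => ?_⟩
  · change δ.at W _ (ε.at W _ (res hW s)) = res hW (δ.at V hV (ε.at V hV s))
    rw [h'.1 V W hV hW, h.1 V W hV hW]
  · obtain ⟨V, hV, hxV, e, he, he'⟩ := h.common h' x hx
    refine ⟨V, hV, hxV, e, fun W hW a b => ?_⟩
    change δ.at W _ (ε.at W _ _) = _ * δ.at W _ (ε.at W _ _)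
    rw [he' W hW, he W hW]

theorem IsDiffOp.add (h : IsDiffOp p δ) (h' : IsDiffOp p ε) : IsDiffOp p (δ + ε) := by
  refine ⟨fun V W hV hW s => ?_, fun x hx => ?_⟩
  · change δ.at W _ (res hW s) + ε.at W _ (res hW s) = res hW (δ.at V hV s + ε.at V hV s)
    rw [h'.1 V W hV hW, h.1 V W hV hW, map_add]
  · obtain ⟨V, hV, hxV, e, he, he'⟩ := h.common h' x hx
    refine ⟨V, hV, hxV, e, fun W hW a b => ?_⟩
    change δ.at W _ _ + ε.at W _ _ = _ * (δ.at W _ _ + ε.at W _ _)
    rw [he' W hW, he W hW, mul_add]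

theorem IsDiffOp.one : IsDiffOp p (1 : Fam X U) :=
  ⟨fun _ _ _ _ _ => rfl, fun _ hx => ⟨U, le_rfl, hx, 0, fun _ _ _ _ => rfl⟩⟩

theorem IsDiffOp.zero : IsDiffOp p (0 : Fam X U) := by
  refine ⟨fun V W hV hW s => ?_, fun x hx => ⟨U, le_rfl, hx, 0, fun W hW a b => ?_⟩⟩
  · change (0 : O X W) = res hW 0
    rw [map_zero]
  · change (0 : O X W) = _ * 0
    rw [mul_zero]

theorem IsDiffOp.neg (h : IsDiffOp p δ) : IsDiffOp p (-δ) := by
  refine ⟨fun V W hV hW s => ?_, fun x hx => ?_⟩
  · change - δ.at W _ (res hW s) = res hW (- δ.at V hV s)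
    rw [h.1 V W hV hW, map_neg]
  · obtain ⟨V, hV, hxV, e, he⟩ := h.2 x hx
    refine ⟨V, hV, hxV, e, fun W hW a b => ?_⟩
    change - δ.at W _ _ = _ * (- δ.at W _ _)
    rw [he W hW, mul_neg]

end subring

/-- The differential operators form a subring of the ring of all families. -/
def diffOps (p : ℕ) (X : Scheme.{u}) (U : X.Opens) : Subring (Fam X U) where
  carrier := {δ | IsDiffOp p δ}
  mul_mem' := IsDiffOp.mul
  one_mem' := IsDiffOp.one
  add_mem' := IsDiffOp.add
  zero_mem' := IsDiffOp.zero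
  neg_mem' := IsDiffOp.neg

/-- The ring `𝒟_X(U)` of differential operators on `U`. -/
def D (p : ℕ) (X : Scheme.{u}) (U : X.Opens) : Type u := diffOps p X U

instance instRingD (p : ℕ) (X : Scheme.{u}) (U : X.Opens) : Ring (D p X U) :=
  (diffOps p X U).toRing

/-- The family underlying a differential operator. -/
def D.fam {p : ℕ} {X : Scheme.{u}} {U : X.Opens} (δ : D p X U) : Fam X U :=
  Subtype.val (p := fun δ => δ ∈ diffOps p X U) δ

/-- The action of a differential operator on `U` on the functions on `V ≤ U`. -/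
def D.app {p : ℕ} {X : Scheme.{u}} {U : X.Opens} (δ : D p X U) (V : X.Opens) (hV : V ≤ U) :
    AddMonoid.End (O X V) := δ.fam.at V hV

/-- Constructor for differential operators. -/
def D.mk {p : ℕ} {X : Scheme.{u}} {U : X.Opens} (δ : Fam X U) (h : IsDiffOp p δ) : D p X U :=
  Subtype.mk (p := fun δ => δ ∈ diffOps p X U) δ h

theorem D.isDiffOp {p : ℕ} {X : Scheme.{u}} {U : X.Opens} (δ : D p X U) : IsDiffOp p δ.fam :=
  Subtype.property (p := fun δ => δ ∈ diffOps p X U) δ

theorem D.ext {p : ℕ} {X : Scheme.{u}} {U : X.Opens} {δ ε : D p X U}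
    (h : ∀ (V : X.Opens) (hV : V ≤ U) (s : O X V), δ.app V hV s = ε.app V hV s) : δ = ε := by
  apply Subtype.ext
  funext V
  exact AddMonoidHom.ext (h V.1 V.2)

/-- The restriction of a family to a smaller open set: forget some components. -/
def Fam.restrict {X : Scheme.{u}} {U U' : X.Opens} (h : U' ≤ U) (δ : Fam X U) : Fam X U' :=
  fun V => δ.at V.1 (V.2.trans h)

theorem IsDiffOp.restrict {p : ℕ} {X : Scheme.{u}} {U U' : X.Opens} (h : U' ≤ U) {δ : Fam X U}
    (hδ : IsDiffOp p δ) : IsDiffOp p (δ.restrict h) := by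
  refine ⟨fun V W hV hW s => hδ.1 V W (hV.trans h) hW s, fun x hx => ?_⟩
  obtain ⟨V, hV, hxV, e, he⟩ := hδ.2 x (h hx)
  exact ⟨V ⊓ U', inf_le_right, ⟨hxV, hx⟩, e, fun W hW a b => he W (hW.trans inf_le_left) a b⟩

/-- Restriction `𝒟_X(U) → 𝒟_X(U')` for `U' ≤ U`. -/
def diffRes (p : ℕ) (X : Scheme.{u}) {U U' : X.Opens} (h : U' ≤ U) : D p X U →+* D p X U' where
  toFun δ := D.mk (Fam.restrict h δ.fam) (δ.isDiffOp.restrict h)
  map_one' := rfl
  map_mul' _ _ := rfl
  map_zero' := rfl
  map_add' _ _ := rfl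

/-- The presheaf of rings `U ↦ 𝒟_X(U)`. -/
def diffPresheaf (p : ℕ) (X : Scheme.{u}) : TopCat.Presheaf RingCat.{u} X where
  obj U := RingCat.of (D p X U.unop)
  map i := RingCat.ofHom (diffRes p X i.unop.le)
  map_id _ := rfl
  map_comp _ _ := rfl

/-! ### The sheaf property of `𝒟_X` -/

theorem res_ext {X : Scheme.{u}} {ι : Type u} (U : ι → X.Opens) (V : X.Opens)
    (hU : ∀ i, U i ≤ V) (hc : V ≤ iSup U) (s t : O X V) (h : ∀ i, res (hU i) s = res (hU i) t) :
    s = t :=
  X.sheaf.eq_of_locally_eq' U V (fun i => homOfLE (hU i)) hc s t h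

theorem res_glue {X : Scheme.{u}} {ι : Type u} (U : ι → X.Opens) (V : X.Opens)
    (hU : ∀ i, U i ≤ V) (hc : V ≤ iSup U) (s : ∀ i, O X (U i))
    (h : ∀ i j, res (inf_le_left : U i ⊓ U j ≤ U i) (s i) =
      res (inf_le_right : U i ⊓ U j ≤ U j) (s j)) :
    ∃ t : O X V, ∀ i, res (hU i) t = s i :=
  (X.sheaf.existsUnique_gluing' U V (fun i => homOfLE (hU i)) hc s h).exists

section glue

variable (p : ℕ) (X : Scheme.{u}) {ι : Type u} (U : ι → X.Opens) (δ : ∀ i, D p X (U i))
  (hδ : ∀ i j, diffRes p X (inf_le_left : U i ⊓ U j ≤ U i) (δ i) =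
    diffRes p X (inf_le_right : U i ⊓ U j ≤ U j) (δ j))

include hδ in
theorem glue_eq (i j : ι) (W : X.Opens) (hi : W ≤ U i) (hj : W ≤ U j) (s : O X W) :
    (δ i).app W hi s = (δ j).app W hj s := by
  have := congrArg (fun d : D p X (U i ⊓ U j) => d.app W (le_inf hi hj) s) (hδ i j)
  exact this

theorem D.app_res {p : ℕ} {X : Scheme.{u}} {U : X.Opens} (δ : D p X U) {V W : X.Opens}
    (hV : V ≤ U) (hW : W ≤ U) (h : W ≤ V) (s : O X V) :
    δ.app W hW (res h s) = res h (δ.app V hV s) := δ.isDiffOp.1 V W hV h s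

include hδ in
theorem glue_exists (V : X.Opens) (hV : V ≤ iSup U) (s : O X V) :
    ∃ t : O X V, ∀ i, res (inf_le_left : V ⊓ U i ≤ V) t =
      (δ i).app (V ⊓ U i) inf_le_right (res inf_le_left s) := by
  refine res_glue (fun i => V ⊓ U i) V (fun i => inf_le_left) ?_ _ ?_
  · intro x hx
    obtain ⟨i, hi⟩ := Opens.mem_iSup.mp (hV hx)
    exact Opens.mem_iSup.mpr ⟨i, hx, hi⟩
  · intro i j
    have h1 : V ⊓ U i ⊓ (V ⊓ U j) ≤ U i := inf_le_left.trans inf_le_right
    have h2 : V ⊓ U i ⊓ (V ⊓ U j) ≤ U j := inf_le_right.trans inf_le_right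
    rw [← (δ i).app_res inf_le_right h1 inf_le_left,
      ← (δ j).app_res inf_le_right h2 inf_le_right, res_res, res_res]
    exact glue_eq p X U δ hδ i j _ h1 h2 _

/-- the glued operator -/
noncomputable def glueFun (V : X.Opens) (hV : V ≤ iSup U) (s : O X V) : O X V :=
  (glue_exists p X U δ hδ V hV s).choose

theorem glueFun_spec (V : X.Opens) (hV : V ≤ iSup U) (s : O X V) (i : ι) :
    res (inf_le_left : V ⊓ U i ≤ V) (glueFun p X U δ hδ V hV s) =
      (δ i).app (V ⊓ U i) inf_le_right (res inf_le_left s) :=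
  (glue_exists p X U δ hδ V hV s).choose_spec i

theorem glue_ext (V : X.Opens) (hV : V ≤ iSup U) (s t : O X V)
    (h : ∀ i, res (inf_le_left : V ⊓ U i ≤ V) s = res (inf_le_left : V ⊓ U i ≤ V) t) : s = t := by
  refine res_ext (fun i => V ⊓ U i) V (fun i => inf_le_left) ?_ s t h
  intro x hx
  obtain ⟨i, hi⟩ := Opens.mem_iSup.mp (hV hx)
  exact Opens.mem_iSup.mpr ⟨i, hx, hi⟩

theorem glueFun_le (V : X.Opens) (hV : V ≤ iSup U) (i : ι) (hi : V ≤ U i) (s : O X V) :
    glueFun p X U δ hδ V hV s = (δ i).app V hi s := by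
  have h := glueFun_spec p X U δ hδ V hV s i
  rw [(δ i).app_res hi inf_le_right inf_le_left] at h
  have h2 := congrArg (res (le_inf le_rfl hi : V ≤ V ⊓ U i)) h
  rwa [res_res, res_res, res_self, res_self] at h2

/-- the glued operator, as a family -/
noncomputable def glueFam : Fam X (iSup U) := fun V =>
  { toFun := glueFun p X U δ hδ V.1 V.2
    map_zero' := by
      refine glue_ext X U V.1 V.2 _ _ fun i => ?_
      rw [glueFun_spec, map_zero, map_zero]
    map_add' := fun a b => by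
      refine glue_ext X U V.1 V.2 _ _ fun i => ?_
      rw [glueFun_spec, map_add, map_add, map_add, glueFun_spec, glueFun_spec] }

theorem glueFam_isDiffOp : IsDiffOp p (glueFam p X U δ hδ) := by
  refine ⟨fun V W hV h s => ?_, fun x hx => ?_⟩
  · change glueFun p X U δ hδ W (h.trans hV) (res h s) = res h (glueFun p X U δ hδ V hV s)
    refine glue_ext X U W (h.trans hV) _ _ fun i => ?_
    rw [glueFun_spec, res_res, res_res]
    have h3 : W ⊓ U i ≤ V ⊓ U i := inf_le_inf_right _ h
    have := congrArg (res h3) (glueFun_spec p X U δ hδ V hV s i)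
    rw [res_res] at this
    rw [this, ← (δ i).app_res inf_le_right inf_le_right h3, res_res]
  · obtain ⟨i, hi⟩ := Opens.mem_iSup.mp hx
    obtain ⟨V, hV, hxV, e, he⟩ := (δ i).isDiffOp.2 x hi
    refine ⟨V, hV.trans (le_iSup U i), hxV, e, fun W hW a b => ?_⟩
    have hWU : W ≤ iSup U := hW.trans (hV.trans (le_iSup U i))
    change glueFun p X U δ hδ W hWU (a ^ p ^ e * b) = a ^ p ^ e * glueFun p X U δ hδ W hWU b
    rw [glueFun_le p X U δ hδ W hWU i (hW.trans hV), glueFun_le p X U δ hδ W hWU i (hW.trans hV)]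
    exact he W hW a b

end glue

theorem diffPresheaf_isSheaf (p : ℕ) (X : Scheme.{u}) : (diffPresheaf p X).IsSheaf := by
  rw [TopCat.Presheaf.isSheaf_iff_isSheafUniqueGluing]
  intro ι U (δ : ∀ i, D p X (U i)) hδ
  have hδ' : ∀ i j, diffRes p X (inf_le_left : U i ⊓ U j ≤ U i) (δ i) =
    diffRes p X (inf_le_right : U i ⊓ U j ≤ U j) (δ j) := hδ
  refine ⟨D.mk _ (glueFam_isDiffOp p X U δ hδ'), ?_, ?_⟩
  · intro i
    refine D.ext fun V hV s => ?_
    exact glueFun_le p X U δ hδ' V (hV.trans (le_iSup U i)) i hV s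
  · intro (δ' : D p X (iSup U)) h'
    have h'' : ∀ i, diffRes p X (le_iSup U i) δ' = δ i := h'
    refine D.ext fun V hV s => ?_
    change δ'.app V hV s = glueFun p X U δ hδ' V hV s
    refine glue_ext X U V hV _ _ fun i => ?_
    rw [glueFun_spec, ← δ'.app_res hV (inf_le_left.trans hV) inf_le_left, ← h'' i]
    rfl

/-- The sheaf of rings `𝒟_X` of differential operators of the scheme `X` (in characteristic `p`). -/
def diffSheaf (p : ℕ) (X : Scheme.{u}) : Sheaf (Opens.grothendieckTopology X) RingCat.{u} :=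
  ⟨diffPresheaf p X, diffPresheaf_isSheaf p X⟩

/-! ### `𝒟`-modules -/

/-- (Left) `𝒟_X`-modules: sheaves of modules over the sheaf of rings `𝒟_X`. -/
abbrev DMod (p : ℕ) (X : Scheme.{u}) : Type (u + 1) := SheafOfModules.{u} (diffSheaf p X)

/-- Multiplication by a function, as a family. -/
def mulFam {X : Scheme.{u}} {U : X.Opens} (f : O X U) : Fam X U :=
  fun V => AddMonoidHom.mulLeft (res V.2 f)

theorem mulFam_isDiffOp (p : ℕ) {X : Scheme.{u}} {U : X.Opens} (f : O X U) :
    IsDiffOp p (mulFam f) := by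
  refine ⟨fun V W hV h s => ?_, fun x hx => ⟨U, le_rfl, hx, 0, fun W hW a b => ?_⟩⟩
  · change res (h.trans hV) f * res h s = res h (res hV f * s)
    rw [map_mul, res_res]
  · change res _ f * (a ^ p ^ 0 * b) = a ^ p ^ 0 * (res _ f * b)
    ring

/-- Multiplication by a function, as a differential operator: the ring homomorphism
`𝒪_X(U) → 𝒟_X(U)`. -/
def mulOp (p : ℕ) (X : Scheme.{u}) (U : X.Opens) : O X U →+* D p X U where
  toFun f := D.mk (mulFam f) (mulFam_isDiffOp p f)
  map_one' := D.ext fun V hV s => by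
    change res hV 1 * s = s
    rw [map_one, one_mul]
  map_mul' f g := D.ext fun V hV s => by
    change res hV (f * g) * s = res hV f * (res hV g * s)
    rw [map_mul, mul_assoc]
  map_zero' := D.ext fun V hV s => by
    change res hV 0 * s = 0
    rw [map_zero, zero_mul]
  map_add' f g := D.ext fun V hV s => by
    change res hV (f + g) * s = res hV f * s + res hV g * s
    rw [map_add, add_mul]

/-- The homomorphism of sheaves of rings `𝒪_X → 𝒟_X`. -/
def mulHom (p : ℕ) (X : Scheme.{u}) : X.ringCatSheaf ⟶ diffSheaf p X where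
  hom :=
    { app := fun U => RingCat.ofHom (mulOp p X U.unop)
      naturality := fun U V i => by
        ext f
        refine D.ext fun W hW s => ?_
        exact congrArg (· * s) (res_res (X := X) i.unop.le hW f) }

/-- The `𝒪_X`-module underlying a `𝒟_X`-module. -/
noncomputable def toOMod (p : ℕ) (X : Scheme.{u}) (M : DMod p X) : X.Modules :=
  (SheafOfModules.restrictScalars (mulHom p X)).obj M

/-- A `𝒟_X`-module is quasi-coherent if the underlying `𝒪_X`-module is quasi-coherent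
(Mathlib's notion). -/
def IsQCoh {p : ℕ} {X : Scheme.{u}} (M : DMod p X) : Prop :=
  (toOMod p X M).IsQuasicoherent

/-- The abelian sheaf underlying a `𝒟_X`-module. -/
noncomputable def toAb {p : ℕ} {X : Scheme.{u}} (M : DMod p X) :
    Sheaf (Opens.grothendieckTopology X) AddCommGrpCat.{u} :=
  (SheafOfModules.toSheaf (diffSheaf p X)).obj M

/-- The sections of a `𝒟_X`-module over an open set. -/
def Sec {p : ℕ} {X : Scheme.{u}} (M : DMod p X) (U : X.Opens) : Type u := (toAb M).obj.obj (op U)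

noncomputable instance instAddCommGroupSec {p : ℕ} {X : Scheme.{u}} (M : DMod p X)
    (U : X.Opens) : AddCommGroup (Sec M U) :=
  ((toAb M).obj.obj (op U)).str

noncomputable instance instModuleSec {p : ℕ} {X : Scheme.{u}} (M : DMod p X) (U : X.Opens) :
    Module (D p X U) (Sec M U) :=
  (M.val.obj (op U)).isModule

/-- The restriction of sections of a `𝒟_X`-module. -/
noncomputable def Sec.res {p : ℕ} {X : Scheme.{u}} (M : DMod p X) {U V : X.Opens} (h : V ≤ U) :
    Sec M U →+ Sec M V :=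
  ((toAb M).obj.map (homOfLE h).op).hom

/-- A `𝒟_X`-module `M` is generated (over `𝒟_X`) by its global sections: locally, every section of
`M` is a `𝒟_X`-linear combination of restrictions of global sections. -/
def IsGloballyGenerated {p : ℕ} {X : Scheme.{u}} (M : DMod p X) : Prop :=
  ∀ (U : X.Opens) (m : Sec M U), ∀ x ∈ U, ∃ (V : X.Opens) (hV : V ≤ U), x ∈ V ∧
    Sec.res M hV m ∈ Submodule.span (D p X V) (Set.range (Sec.res M (le_top : V ≤ ⊤)))

theorem hasExt_ab (X : Scheme.{u}) :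
    HasExt.{u} (Sheaf (Opens.grothendieckTopology X) AddCommGrpCat.{u}) :=
  inferInstance

/-- The cohomology `H^i(X, M)` of (the abelian sheaf underlying) a `𝒟_X`-module `M`. -/
def cohomology {p : ℕ} {X : Scheme.{u}} (M : DMod p X) (i : ℕ) : Type u :=
  letI := hasExt_ab X
  Sheaf.H (toAb M) i

/-- `X` is `𝒟`-affine: every quasi-coherent `𝒟_X`-module is generated over `𝒟_X` by its global
sections and has no higher cohomology. -/
def IsDAffine (p : ℕ) (X : Scheme.{u}) : Prop :=
  ∀ M : DMod p X, IsQCoh M →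
    IsGloballyGenerated M ∧ ∀ i : ℕ, 0 < i → Subsingleton (cohomology M i)

end MP7b9e54
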