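import Pool.Agent.Lib.MP_7b9e54_ag.Local

/-!
# Fractions as sections of the structure sheaf of `Proj`
-/

open AlgebraicGeometry CategoryTheory TopologicalSpace Opposite HomogeneousLocalization

universe u

namespace MP7b9e54

variable {A : Type u} [CommRing A] {σ : Type*} [SetLike σ A] [AddSubgroupClass σ A]
  (𝒜 : ℕ → σ) [GradedRing 𝒜]

/-- the complement of the homogeneous prime ideal of a point -/
abbrev pc (p : ProjectiveSpectrum 𝒜) : Submonoid A := p.asHomogeneousIdeal.toIdeal.primeCompl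

/-- the homogeneous localization at a point -/
abbrev At (p : ProjectiveSpectrum 𝒜) : Type u :=
  HomogeneousLocalization.AtPrime 𝒜 p.asHomogeneousIdeal.toIdeal

/-- the value of a section at a point, in the homogeneous localization -/
def ev {U : (Proj 𝒜).Opens} (p : Proj 𝒜) (hp : p ∈ U) : Γ(Proj 𝒜, U) →+* At 𝒜 p :=
  (openToLocalization 𝒜 U p hp).hom

theorem ev_ext {U : (Proj 𝒜).Opens} (s t : Γ(Proj 𝒜, U))
    (h : ∀ (p : Proj 𝒜) (hp : p ∈ U), ev 𝒜 p hp s = ev 𝒜 p hp t) :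
    s = t := by
  apply Subtype.ext
  funext ⟨p, hp⟩
  exact h p hp

theorem ev_res {U V : (Proj 𝒜).Opens} (hVU : V ≤ U) (s : Γ(Proj 𝒜, U)) (p : Proj 𝒜) (hp : p ∈ V) :
    ev 𝒜 p hp (resG hVU s) = ev 𝒜 p (hVU hp) s := rfl

theorem mem_basicOpen_iff_ev {U : (Proj 𝒜).Opens} (s : Γ(Proj 𝒜, U)) (p : Proj 𝒜) (hp : p ∈ U) :
    p ∈ (Proj 𝒜).basicOpen s ↔ IsUnit (ev 𝒜 p hp s) := by
  rw [Scheme.mem_basicOpen _ _ p hp]
  have h : Proj.stalkIso' 𝒜 p ((Proj 𝒜).presheaf.germ U p hp s) = ev 𝒜 p hp s :=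
    Proj.stalkIso'_germ 𝒜 U p hp s
  rw [← h]
  exact (MulEquiv.isUnit_map (Proj.stalkIso' 𝒜 p).toMulEquiv).symm

/-- The section `x / f` over `D_+(f)`. -/
noncomputable def frac {f : A} {d : ℕ} (hf : f ∈ 𝒜 d) (x : A) (hx : x ∈ 𝒜 d) :
    Γ(Proj 𝒜, Proj.basicOpen 𝒜 f) :=
  Proj.awayToSection 𝒜 f (Away.mk 𝒜 hf 1 x (by simpa using hx))

theorem ev_away {f : A} {d : ℕ} (hf : f ∈ 𝒜 d) (n : ℕ) (x : A) (hx : x ∈ 𝒜 (n • d))
    (p : Proj 𝒜) (hp : p ∈ Proj.basicOpen 𝒜 f) :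
    (ev 𝒜 p hp (Proj.awayToSection 𝒜 f (Away.mk 𝒜 hf n x hx))).val =
      Localization.mk x
        (⟨f ^ n, fun h => hp ((ProjectiveSpectrum.isPrime p).mem_of_pow_mem n h)⟩ : pc 𝒜 p) := by
  rfl

theorem ev_frac {f : A} {d : ℕ} (hf : f ∈ 𝒜 d) (x : A) (hx : x ∈ 𝒜 d)
    (p : Proj 𝒜) (hp : p ∈ Proj.basicOpen 𝒜 f) :
    (ev 𝒜 p hp (frac 𝒜 hf x hx)).val = Localization.mk x (⟨f, hp⟩ : pc 𝒜 p) := by
  rw [frac, ev_away]
  congr 1
  exact Subtype.ext (pow_one f)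

theorem basicOpen_frac {f : A} {d : ℕ} (hf : f ∈ 𝒜 d) (x : A) (hx : x ∈ 𝒜 d) :
    (Proj 𝒜).basicOpen (frac 𝒜 hf x hx) = Proj.basicOpen 𝒜 f ⊓ Proj.basicOpen 𝒜 x := by
  ext p
  constructor
  · intro h
    have hp : p ∈ Proj.basicOpen 𝒜 f := (Proj 𝒜).basicOpen_le _ h
    refine ⟨hp, ?_⟩
    rw [SetLike.mem_coe, mem_basicOpen_iff_ev 𝒜 _ p hp, ← isUnit_iff_isUnit_val, ev_frac,
      Localization.mk_eq_mk', IsLocalization.AtPrime.isUnit_mk'_iff] at h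
    exact h
  · rintro ⟨hp, hx'⟩
    rw [SetLike.mem_coe, mem_basicOpen_iff_ev 𝒜 _ p hp, ← isUnit_iff_isUnit_val, ev_frac,
      Localization.mk_eq_mk', IsLocalization.AtPrime.isUnit_mk'_iff]
    exact hx'

end MP7b9e54
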