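import Pool.Agent.Lib.MP_7b9e54_ag.QuotGrading

/-!
# The point-plane incidence variety

`Inc k = {(x, H) ∈ ℙ³ × (ℙ³)^∨ : x ∈ H}`, embedded by the Segre map
`((x_i), (y_j)) ↦ (z_ij = x_i y_j)` in `ℙ¹⁵ = ℙ(M_4(k))`: the closed subscheme given by the
`2 × 2`-minors and the trace of the matrix `(z_ij)`.
-/

open AlgebraicGeometry MvPolynomial

universe u

namespace MP7b9e54

variable (k : Type u) [Field k]

/-- The polynomial ring in the entries `z_ij` of a `4 × 4`-matrix. -/
noncomputable abbrev ZPoly : Type u := MvPolynomial (Fin 4 × Fin 4) k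

/-- The equations of the incidence variety in its Segre embedding: the `2 × 2`-minors
`z_ij z_lm - z_im z_lj` (the equations of `ℙ³ × (ℙ³)^∨` in `ℙ¹⁵`) and the trace `∑ z_ii`
(the equation `∑ x_i y_i = 0`). -/
noncomputable def incGens : Set (ZPoly k) :=
  {f | ∃ i j l m : Fin 4, f = X (i, j) * X (l, m) - X (i, m) * X (l, j)} ∪
    {∑ i : Fin 4, X (i, i)}

/-- The ideal generated by `incGens`. -/
noncomputable def incIdeal : Ideal (ZPoly k) := Ideal.span (incGens k)

/-- The homogeneous coordinate ring of the incidence variety. -/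
noncomputable abbrev IncRing : Type u := ZPoly k ⧸ incIdeal k

/-- The grading of the homogeneous coordinate ring. -/
noncomputable abbrev incGrading : ℕ → Submodule k (IncRing k) :=
  quotGrading (homogeneousSubmodule (Fin 4 × Fin 4) k) (incIdeal k)

theorem incGens_homogeneous (g : ZPoly k) (hg : g ∈ incGens k) :
    ∃ n, g ∈ homogeneousSubmodule (Fin 4 × Fin 4) k n := by
  rcases hg with ⟨i, j, l, m, rfl⟩ | rfl
  · refine ⟨2, ?_⟩
    rw [mem_homogeneousSubmodule]
    exact ((isHomogeneous_X k _).mul (isHomogeneous_X k _)).sub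
      ((isHomogeneous_X k _).mul (isHomogeneous_X k _))
  · refine ⟨1, ?_⟩
    rw [mem_homogeneousSubmodule]
    exact IsHomogeneous.sum _ _ _ fun i _ => isHomogeneous_X k _

theorem nonempty_gradedAlgebra : Nonempty (GradedAlgebra (incGrading k)) :=
  letI := MvPolynomial.gradedAlgebra (σ := Fin 4 × Fin 4) (R := k)
  ⟨quotGradedAlgebra _ _ (incGens k) (incGens_homogeneous k) rfl⟩

/-- `incGrading k` is a grading (the decomposition into homogeneous components is unique). -/
noncomputable instance incGradedAlgebra : GradedAlgebra (incGrading k) :=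
  Classical.choice (nonempty_gradedAlgebra k)

/-- The incidence variety of points and planes in `ℙ³`. -/
noncomputable abbrev Inc : Scheme.{u} := Proj (incGrading k)

/-! ### Basic facts -/

variable {k}

/-- the coordinate `z_ij` in the coordinate ring -/
noncomputable def z (i j : Fin 4) : IncRing k := Ideal.Quotient.mk _ (X (i, j))

theorem z_mem (i j : Fin 4) : (z i j : IncRing k) ∈ incGrading k 1 :=
  mk_mem_quotGrading _ _ (by rw [mem_homogeneousSubmodule]; exact isHomogeneous_X k _)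

theorem z_mul (i j l m : Fin 4) : (z i j * z l m : IncRing k) = z i m * z l j := by
  unfold z
  rw [← map_mul, ← map_mul, Ideal.Quotient.eq]
  exact Ideal.subset_span (Or.inl ⟨i, j, l, m, rfl⟩)

theorem z_trace : (∑ i, z i i : IncRing k) = 0 := by
  unfold z
  rw [← map_sum, Ideal.Quotient.eq_zero_iff_mem]
  exact Ideal.subset_span (Or.inr rfl)

theorem adjoin_z :
    Algebra.adjoin k (Set.range fun ij : Fin 4 × Fin 4 => (z ij.1 ij.2 : IncRing k)) = ⊤ := by
  have h := MvPolynomial.adjoin_range_X (R := k) (σ := Fin 4 × Fin 4)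
  have h2 := congrArg (Subalgebra.map (Ideal.Quotient.mkₐ k (incIdeal k))) h
  rw [AlgHom.map_adjoin, Algebra.map_top, ← Set.range_comp] at h2
  rw [(AlgHom.range_eq_top _).mpr (Ideal.Quotient.mkₐ_surjective k _)] at h2
  exact h2

/-- The elements `f_l` with `D_+(f_l) = {b_j ≠ 0 for all j ≠ l}`, where
`(b_0, b_1, b_2, b_3) = (x_0, x_1, y_2, y_3)`. -/
noncomputable def fT : Fin 4 → IncRing k :=
  ![z 1 2 * z 1 3, z 0 2 * z 0 3, z 0 3 * z 1 3, z 0 2 * z 1 2]

/-- The complementary elements: `fT l * gT l = gS`. -/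
noncomputable def gT : Fin 4 → IncRing k :=
  ![z 0 2 * z 0 3, z 1 2 * z 1 3, z 0 2 * z 1 2, z 0 3 * z 1 3]

/-- `D_+(gS) = {x_0 x_1 y_2 y_3 ≠ 0}`. -/
noncomputable def gS : IncRing k := z 0 2 * z 1 2 * (z 0 3 * z 1 3)

theorem fT_mul_gT (l : Fin 4) : (gS : IncRing k) = fT l * gT l := by
  fin_cases l
  · change z 0 2 * z 1 2 * (z 0 3 * z 1 3) = z 1 2 * z 1 3 * (z 0 2 * z 0 3)
    ring
  · change z 0 2 * z 1 2 * (z 0 3 * z 1 3) = z 0 2 * z 0 3 * (z 1 2 * z 1 3)
    ring
  · change z 0 2 * z 1 2 * (z 0 3 * z 1 3) = z 0 3 * z 1 3 * (z 0 2 * z 1 2)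
    ring
  · change z 0 2 * z 1 2 * (z 0 3 * z 1 3) = z 0 2 * z 1 2 * (z 0 3 * z 1 3)
    ring

theorem zz_mem (i j l m : Fin 4) : (z i j * z l m : IncRing k) ∈ incGrading k 2 :=
  SetLike.GradedMul.mul_mem (z_mem i j) (z_mem l m)

theorem fT_mem (l : Fin 4) : (fT l : IncRing k) ∈ incGrading k 2 := by
  fin_cases l <;> exact zz_mem _ _ _ _

theorem gT_mem (l : Fin 4) : (gT l : IncRing k) ∈ incGrading k 2 := by
  fin_cases l <;> exact zz_mem _ _ _ _

theorem gS_mem : (gS : IncRing k) ∈ incGrading k 4 :=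
  SetLike.GradedMul.mul_mem (zz_mem _ _ _ _) (zz_mem _ _ _ _)

end MP7b9e54
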