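import Pool.Agent.Lib.MP_7b9e54_ag.Inc

/-!
# The algebraic heart: a test homomorphism

`B = k[t₀,t₁,t₂]/(t₀^Q, t₁^Q, t₂^Q)`, `t₃ := -(t₀+t₁+t₂)` (so `t₃^Q = 0` in characteristic `p`,
`Q = p^2`), `L = B[u₀^±, u₁^±, u₂^±, u₃^±]` and
`Ψ(z_ij) = X_i Y_j` with `X = (u₀, u₁, t₂/u₂, t₃/u₃)`, `Y = (t₀/u₀, t₁/u₁, u₂, u₃)`.
The coefficient of `(u₀u₁u₂u₃)^{-Q}` vanishes on `Ψ(n)/Ψ(f_l)^N` because the coefficient of any
monomial `u^v` in `Ψ(n)` is divisible by `t_l^{max(0,-v_l)}`, while it is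
`t₀^{Q-1} t₁^{Q-1} t₂^2 ≠ 0` for the element on the right hand side.
-/

open MvPolynomial

universe u

namespace MP7b9e54

namespace IncAlg

variable (p : ℕ) (k : Type u) [Field k]

/-- the ideal `(t₀^Q, t₁^Q, t₂^Q)` -/
noncomputable def J : Ideal (MvPolynomial (Fin 3) k) :=
  Ideal.span (Set.range fun i : Fin 3 => (X i : MvPolynomial (Fin 3) k) ^ (p ^ 2))

/-- the truncated polynomial ring -/
abbrev B : Type u := MvPolynomial (Fin 3) k ⧸ J p k

/-- the elements `t₀, t₁, t₂, t₃` before passing to the quotient -/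
noncomputable def tt : Fin 4 → MvPolynomial (Fin 3) k :=
  ![X 0, X 1, X 2, -(X 0 + X 1 + X 2)]

/-- the elements `t₀, t₁, t₂, t₃` -/
noncomputable def t (i : Fin 4) : B p k := Ideal.Quotient.mk (J p k) (tt k i)

theorem X_pow_mem (i : Fin 3) : (X i : MvPolynomial (Fin 3) k) ^ (p ^ 2) ∈ J p k :=
  Ideal.subset_span ⟨i, rfl⟩

theorem t_pow [Fact p.Prime] [CharP k p] (i : Fin 4) : t p k i ^ (p ^ 2) = 0 := by
  unfold t
  rw [← map_pow, Ideal.Quotient.eq_zero_iff_mem]
  fin_cases i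
  · exact X_pow_mem p k 0
  · exact X_pow_mem p k 1
  · exact X_pow_mem p k 2
  · show (-(X 0 + X 1 + X 2) : MvPolynomial (Fin 3) k) ^ (p ^ 2) ∈ J p k
    rw [neg_pow, add_pow_char_pow, add_pow_char_pow]
    exact Ideal.mul_mem_left _ _ (Ideal.add_mem _ (Ideal.add_mem _ (X_pow_mem p k 0)
      (X_pow_mem p k 1)) (X_pow_mem p k 2))

theorem t_sum : t p k 0 + t p k 1 + t p k 2 + t p k 3 = 0 := by
  unfold t
  rw [← map_add, ← map_add, ← map_add]
  have : tt k 0 + tt k 1 + tt k 2 + tt k 3 = 0 := by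
    show (X 0 + X 1 + X 2 + -(X 0 + X 1 + X 2) : MvPolynomial (Fin 3) k) = 0
    ring
  rw [this, map_zero]

theorem top_ne_zero [Fact p.Prime] :
    t p k 0 ^ (p ^ 2 - 1) * t p k 1 ^ (p ^ 2 - 1) * t p k 2 ^ 2 ≠ 0 := by
  have hp : 2 ≤ p := (Fact.out : p.Prime).two_le
  have hQ : 4 ≤ p ^ 2 := by nlinarith
  unfold t
  rw [← map_pow, ← map_pow, ← map_pow, ← map_mul, ← map_mul, Ne, Ideal.Quotient.eq_zero_iff_mem]
  intro hmem
  have hJ : J p k = Ideal.span ((fun s => monomial s (1 : k)) ''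
      (Set.range fun i : Fin 3 => Finsupp.single i (p ^ 2))) := by
    unfold J
    congr 1
    rw [← Set.range_comp]
    congr 1
    funext i
    show X i ^ (p ^ 2) = monomial (Finsupp.single i (p ^ 2)) 1
    rw [X_pow_eq_monomial]
  have hmon : tt k 0 ^ (p ^ 2 - 1) * tt k 1 ^ (p ^ 2 - 1) * tt k 2 ^ 2 =
      monomial (Finsupp.single (0 : Fin 3) (p ^ 2 - 1) + Finsupp.single (1 : Fin 3) (p ^ 2 - 1) +
        Finsupp.single (2 : Fin 3) 2) (1 : k) := by
    show X 0 ^ (p ^ 2 - 1) * X 1 ^ (p ^ 2 - 1) * X 2 ^ 2 = _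
    rw [X_pow_eq_monomial, X_pow_eq_monomial, X_pow_eq_monomial, monomial_mul, monomial_mul]
    simp
  rw [hJ, hmon, mem_ideal_span_monomial_image] at hmem
  obtain ⟨s, ⟨i, rfl⟩, hs⟩ := hmem (Finsupp.single (0 : Fin 3) (p ^ 2 - 1) +
    Finsupp.single (1 : Fin 3) (p ^ 2 - 1) + Finsupp.single (2 : Fin 3) 2)
    (by rw [mem_support_iff, coeff_monomial, if_pos rfl]; exact one_ne_zero)
  have h := hs i
  fin_cases i <;> simp at h <;> omega

/-- the Laurent polynomial ring -/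
abbrev L : Type u := AddMonoidAlgebra (B p k) (Fin 4 → ℤ)

/-- exponents of `X_i` -/
def a (i : Fin 4) : Fin 4 → ℤ := if i.1 < 2 then Pi.single i 1 else Pi.single i (-1)
/-- exponents of `Y_j` -/
def b (i : Fin 4) : Fin 4 → ℤ := if i.1 < 2 then Pi.single i (-1) else Pi.single i 1
/-- coefficients of `X_i` -/
noncomputable def al (i : Fin 4) : B p k := if i.1 < 2 then 1 else t p k i
/-- coefficients of `Y_j` -/
noncomputable def be (i : Fin 4) : B p k := if i.1 < 2 then t p k i else 1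

/-- the image of `z_ij` -/
noncomputable def zz (i j : Fin 4) : L p k :=
  AddMonoidAlgebra.single (a i + b j) (al p k i * be p k j)

theorem zz_eq (i j : Fin 4) : zz p k i j =
    AddMonoidAlgebra.single (a i) (al p k i) * AddMonoidAlgebra.single (b j) (be p k j) := by
  unfold zz; rw [AddMonoidAlgebra.single_mul_single]

/-- the homomorphism on the polynomial ring -/
noncomputable def Psi0 : ZPoly k →+* L p k :=
  eval₂Hom ((AddMonoidAlgebra.singleZeroRingHom (R := B p k) (M := Fin 4 → ℤ)).comp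
    ((Ideal.Quotient.mk (J p k)).comp C)) (fun ij => zz p k ij.1 ij.2)

theorem Psi0_X (ij : Fin 4 × Fin 4) : Psi0 p k (X ij) = zz p k ij.1 ij.2 := by
  unfold Psi0; rw [coe_eval₂Hom, eval₂_X]

theorem zz_diag (i : Fin 4) : zz p k i i = AddMonoidAlgebra.single 0 (t p k i) := by
  unfold zz
  congr 1
  · fin_cases i <;> decide
  · fin_cases i <;> simp [al, be]

theorem Psi0_incIdeal (x : ZPoly k) (hx : x ∈ incIdeal k) : Psi0 p k x = 0 := by
  have : incIdeal k ≤ RingHom.ker (Psi0 p k) := by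
    unfold incIdeal
    rw [Ideal.span_le]
    rintro g (⟨i, j, l, m, rfl⟩ | rfl)
    · rw [SetLike.mem_coe, RingHom.mem_ker, map_sub, map_mul, map_mul, Psi0_X, Psi0_X, Psi0_X,
        Psi0_X, zz_eq, zz_eq, zz_eq, zz_eq]
      ring
    · rw [SetLike.mem_coe, RingHom.mem_ker, map_sum, Fin.sum_univ_four, Psi0_X, Psi0_X, Psi0_X,
        Psi0_X]
      show zz p k 0 0 + zz p k 1 1 + zz p k 2 2 + zz p k 3 3 = 0
      rw [zz_diag, zz_diag, zz_diag, zz_diag, ← AddMonoidAlgebra.single_add,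
        ← AddMonoidAlgebra.single_add, ← AddMonoidAlgebra.single_add, t_sum,
        AddMonoidAlgebra.single_zero]
  exact this hx

/-- the test homomorphism -/
noncomputable def Psi : IncRing k →+* L p k :=
  Ideal.Quotient.lift (incIdeal k) (Psi0 p k) (Psi0_incIdeal p k)

theorem Psi_z (i j : Fin 4) : Psi p k (z i j) = zz p k i j := by
  unfold Psi z
  rw [Ideal.Quotient.lift_mk, Psi0_X]

/-! divisibility -/

theorem dvd_al (l i : Fin 4) : t p k l ^ (-(a i l)).toNat ∣ al p k i := by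
  fin_cases l <;> fin_cases i <;> simp [a, al]

theorem dvd_be (l i : Fin 4) : t p k l ^ (-(b i l)).toNat ∣ be p k i := by
  fin_cases l <;> fin_cases i <;> simp [b, be]

theorem dvd_add {R : Type*} [CommRing R] {t x y : R} {m n : ℤ} (h1 : t ^ (-m).toNat ∣ x)
    (h2 : t ^ (-n).toNat ∣ y) : t ^ (-(m + n)).toNat ∣ x * y := by
  refine dvd_trans (pow_dvd_pow t ?_) (by rw [pow_add]; exact mul_dvd_mul h1 h2)
  omega

theorem dvd_coeff (l : Fin 4) (n : ZPoly k) :
    ∀ v : Fin 4 → ℤ, t p k l ^ (-(v l)).toNat ∣ (Psi0 p k n).coeff v := by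
  induction n using MvPolynomial.induction_on with
  | C c =>
    intro v
    have : Psi0 p k (C c) = AddMonoidAlgebra.single 0 (Ideal.Quotient.mk (J p k) (C c)) := by
      unfold Psi0; rw [coe_eval₂Hom, eval₂_C]; rfl
    rw [this, AddMonoidAlgebra.coeff_single]
    by_cases hv : v = 0
    · rw [hv]; simp
    · rw [Finsupp.single_apply, if_neg (fun h => hv h.symm)]; exact dvd_zero _
  | add f g hf hg =>
    intro v
    rw [map_add, AddMonoidAlgebra.coeff_add, Finsupp.add_apply]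
    exact _root_.dvd_add (hf v) (hg v)
  | mul_X f ij hf =>
    intro v
    rw [map_mul, Psi0_X]
    unfold zz
    rw [AddMonoidAlgebra.coeff_mul_single_apply]
    have e : v l = (v + -(a ij.1 + b ij.2)) l + (a ij.1 l + b ij.2 l) := by
      simp only [Pi.add_apply, Pi.neg_apply]; ring
    rw [e]
    exact dvd_add (hf _) (dvd_add (dvd_al p k l _) (dvd_be p k l _))

theorem dvd_coeff' (l : Fin 4) (n : IncRing k) (v : Fin 4 → ℤ) :
    t p k l ^ (-(v l)).toNat ∣ (Psi p k n).coeff v := by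
  obtain ⟨m, rfl⟩ := Ideal.Quotient.mk_surjective n
  exact dvd_coeff p k l m v

/-- exponent of the image of `f_l` -/
def fe (l : Fin 4) : Fin 4 → ℤ :=
  ![![0, 2, 1, 1], ![2, 0, 1, 1], ![1, 1, 0, 2], ![1, 1, 2, 0]] l

theorem Psi_fT (l : Fin 4) : Psi p k (fT l) = AddMonoidAlgebra.single (fe l) 1 := by
  fin_cases l
  · show Psi p k (z 1 2 * z 1 3) = _
    rw [map_mul, Psi_z, Psi_z]; unfold zz; rw [AddMonoidAlgebra.single_mul_single]
    congr 1
    · decide
    · simp [al, be]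
  · show Psi p k (z 0 2 * z 0 3) = _
    rw [map_mul, Psi_z, Psi_z]; unfold zz; rw [AddMonoidAlgebra.single_mul_single]
    congr 1
    · decide
    · simp [al, be]
  · show Psi p k (z 0 3 * z 1 3) = _
    rw [map_mul, Psi_z, Psi_z]; unfold zz; rw [AddMonoidAlgebra.single_mul_single]
    congr 1
    · decide
    · simp [al, be]
  · show Psi p k (z 0 2 * z 1 2) = _
    rw [map_mul, Psi_z, Psi_z]; unfold zz; rw [AddMonoidAlgebra.single_mul_single]
    congr 1
    · decide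
    · simp [al, be]

theorem Psi_gS : Psi p k gS = AddMonoidAlgebra.single (fun _ => 2) 1 := by
  show Psi p k (z 0 2 * z 1 2 * (z 0 3 * z 1 3)) = _
  rw [map_mul, map_mul, map_mul, Psi_z, Psi_z, Psi_z, Psi_z]
  unfold zz
  rw [AddMonoidAlgebra.single_mul_single, AddMonoidAlgebra.single_mul_single,
    AddMonoidAlgebra.single_mul_single]
  congr 1
  · decide
  · simp [al, be]

theorem unit_single (w : Fin 4 → ℤ) :
    IsUnit (AddMonoidAlgebra.single w (1 : B p k) : L p k) := by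
  refine ⟨⟨AddMonoidAlgebra.single w (1 : B p k), AddMonoidAlgebra.single (-w) (1 : B p k),
    ?_, ?_⟩, rfl⟩
  · rw [AddMonoidAlgebra.single_mul_single, add_neg_cancel, mul_one]; rfl
  · rw [AddMonoidAlgebra.single_mul_single, neg_add_cancel, mul_one]; rfl

theorem inverse_single (w : Fin 4 → ℤ) :
    Ring.inverse (AddMonoidAlgebra.single w (1 : B p k) : L p k) =
      AddMonoidAlgebra.single (-w) 1 := by
  have h := Ring.inverse_mul_cancel _ (unit_single p k w)
  have h2 : (AddMonoidAlgebra.single w (1 : B p k) : L p k) * AddMonoidAlgebra.single (-w) 1 = 1 := by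
    rw [AddMonoidAlgebra.single_mul_single, add_neg_cancel, mul_one]; rfl
  calc Ring.inverse (AddMonoidAlgebra.single w (1 : B p k) : L p k)
      = Ring.inverse (AddMonoidAlgebra.single w (1 : B p k) : L p k) *
        ((AddMonoidAlgebra.single w (1 : B p k) : L p k) * AddMonoidAlgebra.single (-w) 1) := by
          rw [h2, mul_one]
    _ = AddMonoidAlgebra.single (-w) 1 := by rw [← mul_assoc, h, one_mul]

end IncAlg

open IncAlg in
theorem exists_test_hom (p : ℕ) [Fact p.Prime] (k : Type u) [Field k] [CharP k p] :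
    ∃ (L : Type u) (_ : CommRing L) (Ψ : IncRing k →+* L), IsUnit (Ψ gS) ∧
      ∀ (n : Fin 4 → IncRing k) (N : Fin 4 → ℕ),
        ∑ l, Ψ (n l) * Ring.inverse (Ψ (fT l)) ^ N l ≠
          Ψ (z 0 0 ^ (p ^ 2 - 1) * z 1 1 ^ (p ^ 2 - 1) * z 2 2 ^ 2 * (z 0 2 * z 1 3) ^ p ^ 2) *
            Ring.inverse (Ψ gS) ^ p ^ 2 := by
  refine ⟨IncAlg.L p k, inferInstance, IncAlg.Psi p k, ?_, ?_⟩
  · rw [Psi_gS]; exact unit_single p k _
  intro n N heq
  set v : Fin 4 → ℤ := fun _ => -((p ^ 2 : ℕ) : ℤ) with hv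
  have h1 : ∀ l, (Psi p k (n l) * Ring.inverse (Psi p k (fT l)) ^ N l).coeff v = 0 := by
    intro l
    rw [Psi_fT, inverse_single, AddMonoidAlgebra.single_pow, one_pow,
      AddMonoidAlgebra.coeff_mul_single_apply, mul_one]
    have h2 := dvd_coeff' p k l (n l) (v + -(N l • -fe l))
    have h3 : (-((v + -(N l • -fe l)) l)).toNat = p ^ 2 := by
      have : fe l l = 0 := by fin_cases l <;> rfl
      have h4 : (v + -(N l • -fe l)) l = -((p ^ 2 : ℕ) : ℤ) := by
        simp only [Pi.add_apply, Pi.neg_apply, Pi.smul_apply, this, hv, neg_zero, smul_zero,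
          add_zero]
      rw [h4, neg_neg, Int.toNat_natCast]
    rw [h3, t_pow] at h2
    exact zero_dvd_iff.1 h2
  have h4 : (∑ l, Psi p k (n l) * Ring.inverse (Psi p k (fT l)) ^ N l).coeff v =
      (Psi p k (z 0 0 ^ (p ^ 2 - 1) * z 1 1 ^ (p ^ 2 - 1) * z 2 2 ^ 2 *
      (z 0 2 * z 1 3) ^ p ^ 2) * Ring.inverse (Psi p k gS) ^ p ^ 2).coeff v := by rw [heq]
  have h5 : (∑ l, Psi p k (n l) * Ring.inverse (Psi p k (fT l)) ^ N l).coeff v = 0 := by
    rw [AddMonoidAlgebra.coeff_sum, Finsupp.finsetSum_apply]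
    exact Finset.sum_eq_zero fun l _ => h1 l
  rw [h5] at h4
  have h6 : Psi p k (z 0 0 ^ (p ^ 2 - 1) * z 1 1 ^ (p ^ 2 - 1) * z 2 2 ^ 2 *
      (z 0 2 * z 1 3) ^ p ^ 2) * Ring.inverse (Psi p k gS) ^ p ^ 2 =
      AddMonoidAlgebra.single v
        (t p k 0 ^ (p ^ 2 - 1) * t p k 1 ^ (p ^ 2 - 1) * t p k 2 ^ 2) := by
    rw [Psi_gS, inverse_single, map_mul, map_mul, map_mul, map_pow, map_pow, map_pow, map_pow,
      map_mul, Psi_z, Psi_z, Psi_z, Psi_z, Psi_z, zz_diag, zz_diag, zz_diag]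
    unfold zz
    rw [AddMonoidAlgebra.single_mul_single]
    simp only [AddMonoidAlgebra.single_pow, AddMonoidAlgebra.single_mul_single]
    have e1 : a 0 + b 2 + (a 1 + b 3) = fun _ => 1 := by decide
    congr 1
    · rw [e1]
      funext i
      simp [hv]
      ring
    · simp [al, be]
  rw [h6, AddMonoidAlgebra.coeff_single, Finsupp.single_eq_same] at h4
  exact top_ne_zero p k h4.symm

end MP7b9e54
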