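import Pool.Agent.Lib.MP_7b9e54_ag.Inc
import Pool.Agent.Lib.MP_7b9e54_ag.Frac
import Pool.Agent.Lib.MP_7b9e54_ag.Local
import Pool.Agent.Lib.MP_7b9e54_ag.Coh

/-!
# Local surjectivity for the incidence variety
-/

open AlgebraicGeometry CategoryTheory TopologicalSpace Opposite HomogeneousLocalization

universe u

namespace MP7b9e54

variable (k : Type u) [Field k]

/-- the open set `D_+(z_ij)` -/
noncomputable abbrev Dz (i j : Fin 4) : (Inc k).Opens := Proj.basicOpen (incGrading k) (z i j)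

/-- the open sets `U_l = D_+(f_l)` -/
noncomputable abbrev UT (l : Fin 4) : (Inc k).Opens := Proj.basicOpen (incGrading k) (fT l)

/-- the open set `S = D_+(g)` -/
noncomputable abbrev US : (Inc k).Opens := Proj.basicOpen (incGrading k) gS

theorem US_le_UT (l : Fin 4) : US k ≤ UT k l :=
  Proj.basicOpen_mono (incGrading k) _ _ ⟨gT l, fT_mul_gT l⟩

variable {k}

/-- `z_ij ≠ 0` at `p` -/
def nz (p : Inc k) (i j : Fin 4) : Prop := p ∈ Dz k i j

theorem mem_mul (p : Inc k) (a b : IncRing k) :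
    p ∈ Proj.basicOpen (incGrading k) (a * b) ↔
      p ∈ Proj.basicOpen (incGrading k) a ∧ p ∈ Proj.basicOpen (incGrading k) b := by
  rw [Proj.basicOpen_mul]
  rfl

theorem nz_and (p : Inc k) (i j l m : Fin 4) : nz p i j ∧ nz p l m ↔ nz p i m ∧ nz p l j := by
  have h1 := mem_mul p (z i j) (z l m)
  rw [z_mul] at h1
  exact h1.symm.trans (mem_mul p (z i m) (z l j))

theorem nz_iff {p : Inc k} {i j : Fin 4} (h : nz p i j) (l m : Fin 4) :
    nz p l m ↔ nz p l j ∧ nz p i m := by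
  have := nz_and p i j l m
  tauto

theorem mem_UT_zero (p : Inc k) : p ∈ UT k 0 ↔ nz p 1 2 ∧ nz p 1 3 := mem_mul p _ _
theorem mem_UT_one (p : Inc k) : p ∈ UT k 1 ↔ nz p 0 2 ∧ nz p 0 3 := mem_mul p _ _
theorem mem_UT_two (p : Inc k) : p ∈ UT k 2 ↔ nz p 0 3 ∧ nz p 1 3 := mem_mul p _ _
theorem mem_UT_three (p : Inc k) : p ∈ UT k 3 ↔ nz p 0 2 ∧ nz p 1 2 := mem_mul p _ _

theorem mem_US (p : Inc k) : p ∈ US k ↔ (nz p 0 2 ∧ nz p 1 2) ∧ (nz p 0 3 ∧ nz p 1 3) := by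
  rw [US, gS, mem_mul, mem_mul, mem_mul]
  rfl

/-- the sets `D_+(z_ij)` cover -/
theorem exists_nz (p : Inc k) : ∃ i j, nz p i j := by
  have h := Proj.iSup_basicOpen_eq_top' (incGrading k)
    (fun ij : Fin 4 × Fin 4 => (z ij.1 ij.2 : IncRing k)) (fun ij => ⟨1, z_mem _ _⟩) (by
      rw [eq_top_iff]
      intro x _
      have hx : x ∈ Algebra.adjoin k
          (Set.range fun ij : Fin 4 × Fin 4 => (z ij.1 ij.2 : IncRing k)) := by
        rw [adjoin_z]; trivial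
      induction hx using Algebra.adjoin_induction with
      | mem x hx => exact Algebra.subset_adjoin hx
      | algebraMap r =>
        have h1 : algebraMap k (IncRing k) r ∈ incGrading k 0 := SetLike.algebraMap_mem_graded _ r
        exact Subalgebra.algebraMap_mem _ (⟨_, h1⟩ : incGrading k 0)
      | add x y _ _ hx hy => exact add_mem (hx trivial) (hy trivial)
      | mul x y _ _ hx hy => exact mul_mem (hx trivial) (hy trivial))
  have hp : p ∈ (⊤ : (Inc k).Opens) := trivial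
  rw [← h] at hp
  obtain ⟨⟨i, j⟩, hij⟩ := Opens.mem_iSup.mp hp
  exact ⟨i, j, hij⟩

/-- first case: near a point where some `b_l ≠ 0` -/
theorem loc_of_le {V W : (Inc k).Opens} (hW : W ≤ V) (l : Fin 4) (h : W ⊓ UT k l ≤ US k)
    (m : O (Inc k) (V ⊓ US k)) :
    ∃ n : FSec (Inc k) (UT k) W, psi (Inc k) (UT k) (US k) (US_le_UT k) W n =
      res (inf_le_inf_right (US k) hW) m := by
  classical
  refine ⟨Function.update 0 l (res (le_inf (inf_le_left.trans hW) h) m), ?_⟩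
  rw [psi_apply, Finset.sum_eq_single l]
  · rw [Function.update_self, res_res]
  · intro j _ hj
    rw [Function.update_of_ne hj, Pi.zero_apply, map_zero]
  · intro h
    exact absurd (Finset.mem_univ l) h

theorem inf_le_US_0 (j : Fin 4) : Dz k 0 j ⊓ UT k 0 ≤ US k := by
  rintro p ⟨h1, h2⟩
  have h1' : nz p 0 j := h1
  have h2' := (mem_UT_zero p).mp h2
  have e1 := nz_and p 0 j 1 2
  have e2 := nz_and p 0 j 1 3
  exact (mem_US p).mpr (by tauto)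

theorem inf_le_US_1 (j : Fin 4) : Dz k 1 j ⊓ UT k 1 ≤ US k := by
  rintro p ⟨h1, h2⟩
  have h1' : nz p 1 j := h1
  have h2' := (mem_UT_one p).mp h2
  have e1 := nz_and p 1 j 0 2
  have e2 := nz_and p 1 j 0 3
  exact (mem_US p).mpr (by tauto)

theorem inf_le_US_2 (i : Fin 4) : Dz k i 2 ⊓ UT k 2 ≤ US k := by
  rintro p ⟨h1, h2⟩
  have h1' : nz p i 2 := h1
  have h2' := (mem_UT_two p).mp h2
  have e1 := nz_and p i 2 0 3
  have e2 := nz_and p i 2 1 3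
  exact (mem_US p).mpr (by tauto)

theorem inf_le_US_3 (i : Fin 4) : Dz k i 3 ⊓ UT k 3 ≤ US k := by
  rintro p ⟨h1, h2⟩
  have h1' : nz p i 3 := h1
  have h2' := (mem_UT_three p).mp h2
  have e1 := nz_and p i 3 0 2
  have e2 := nz_and p i 3 1 2
  exact (mem_US p).mpr (by tauto)

/-- The section `z_lm / z_ij` on `D_+(z_ij)`. -/
noncomputable def fr (i j l m : Fin 4) : Γ(Inc k, Dz k i j) :=
  frac (incGrading k) (z_mem i j) (z l m) (z_mem l m)

theorem basicOpen_fr (i j l m : Fin 4) :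
    (Inc k).basicOpen (fr i j l m) = Dz k i j ⊓ Dz k l m :=
  basicOpen_frac _ _ _ _

theorem fr_self (i j : Fin 4) : (fr i j i j : Γ(Inc k, Dz k i j)) = 1 := by
  refine ev_ext (incGrading k) _ _ fun p hp => ?_
  rw [map_one, HomogeneousLocalization.ext_iff_val, fr, ev_frac, val_one]
  exact Localization.mk_self (⟨z i j, hp⟩ : pc (incGrading k) p)

theorem fr_mul (i j l : Fin 4) :
    (fr i j l j * fr i j i l : Γ(Inc k, Dz k i j)) = fr i j l l := by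
  refine ev_ext (incGrading k) _ _ fun p hp => ?_
  rw [map_mul, HomogeneousLocalization.ext_iff_val, val_mul, fr, fr, fr, ev_frac, ev_frac, ev_frac,
    Localization.mk_mul, Localization.mk_eq_mk_iff, Localization.r_iff_exists]
  refine ⟨1, ?_⟩
  change 1 * (z i j * (z l j * z i l)) = 1 * (z i j * z i j * z l l)
  have h : (z l j * z i l : IncRing k) = z i j * z l l := by
    rw [z_mul l j i l, mul_comm]
  rw [h]
  ring

theorem fr_trace (i j : Fin 4) : (∑ l, fr i j l l : Γ(Inc k, Dz k i j)) = 0 := by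
  refine ev_ext (incGrading k) _ _ fun p hp => ?_
  rw [map_sum, map_zero, HomogeneousLocalization.ext_iff_val, val_zero]
  have h1 : (∑ l, ev (incGrading k) p hp (fr i j l l)).val =
      ∑ l, (ev (incGrading k) p hp (fr i j l l)).val := by
    simp only [Fin.sum_univ_four, val_add]
  rw [h1]
  have h2 : ∀ l, (ev (incGrading k) p hp (fr i j l l)).val =
      Localization.mk (z l l) (⟨z i j, hp⟩ : pc (incGrading k) p) := fun l => ev_frac _ _ _ _ _ _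
  rw [Finset.sum_congr rfl fun l _ => h2 l, ← Localization.mk_sum, z_trace, Localization.mk_zero]

theorem fr_rel (i j : Fin 4) :
    (∑ l, fr i j l j * fr i j i l : Γ(Inc k, Dz k i j)) = 0 := by
  rw [Finset.sum_congr rfl fun l _ => fr_mul i j l, fr_trace]

/-- the coordinates `b_0, b_1, b_2, b_3` on `D_+(z_ij)` -/
noncomputable def fb (i j : Fin 4) : Fin 4 → Γ(Inc k, Dz k i j) :=
  ![fr i j 0 j, fr i j 1 j, fr i j i 2, fr i j i 3]

theorem fb_mem_span_two (j : Fin 4) :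
    (fb 2 j 2 : Γ(Inc k, Dz k 2 j)) ∈ Ideal.span (fb 2 j '' {l | l ≠ 2}) := by
  have h := fr_rel (k := k) 2 j
  rw [Fin.sum_univ_four, fr_self, one_mul] at h
  have h2 : (fb 2 j 2 : Γ(Inc k, Dz k 2 j)) =
      -(fb 2 j 0 * fr 2 j 2 0 + fb 2 j 1 * fr 2 j 2 1 + fb 2 j 3 * fr 2 j 3 j) := by
    change fr 2 j 2 2 = -(fr 2 j 0 j * fr 2 j 2 0 + fr 2 j 1 j * fr 2 j 2 1 +
      fr 2 j 2 3 * fr 2 j 3 j)
    linear_combination h
  rw [h2]
  refine neg_mem (add_mem (add_mem ?_ ?_) ?_) <;> refine Ideal.mul_mem_right _ _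
    (Ideal.subset_span ⟨_, ?_, rfl⟩)
  · decide
  · decide
  · decide

theorem fb_mem_span_three (j : Fin 4) :
    (fb 3 j 3 : Γ(Inc k, Dz k 3 j)) ∈ Ideal.span (fb 3 j '' {l | l ≠ 3}) := by
  have h := fr_rel (k := k) 3 j
  rw [Fin.sum_univ_four, fr_self, one_mul] at h
  have h2 : (fb 3 j 3 : Γ(Inc k, Dz k 3 j)) =
      -(fb 3 j 0 * fr 3 j 3 0 + fb 3 j 1 * fr 3 j 3 1 + fb 3 j 2 * fr 3 j 2 j) := by
    change fr 3 j 3 3 = -(fr 3 j 0 j * fr 3 j 3 0 + fr 3 j 1 j * fr 3 j 3 1 +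
      fr 3 j 3 2 * fr 3 j 2 j)
    linear_combination h
  rw [h2]
  refine neg_mem (add_mem (add_mem ?_ ?_) ?_) <;> refine Ideal.mul_mem_right _ _
    (Ideal.subset_span ⟨_, ?_, rfl⟩)
  · decide
  · decide
  · decide

/-- `b_l ≠ 0` in terms of `nz` -/
def nb (p : Inc k) (i j : Fin 4) : Fin 4 → Prop := ![nz p 0 j, nz p 1 j, nz p i 2, nz p i 3]

theorem mem_basicOpen_fb {i j : Fin 4} {W : (Inc k).Opens} (hW : W ≤ Dz k i j) (p : Inc k)
    (hp : p ∈ W) (l : Fin 4) : p ∈ (Inc k).basicOpen (resG hW (fb i j l)) ↔ nb p i j l := by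
  rw [resG, Scheme.basicOpen_res]
  have hp' : p ∈ Dz k i j := hW hp
  fin_cases l
  · change p ∈ W ⊓ (Inc k).basicOpen (fr i j 0 j) ↔ _
    rw [basicOpen_fr]
    exact ⟨fun h => h.2.2, fun h => ⟨hp, hp', h⟩⟩
  · change p ∈ W ⊓ (Inc k).basicOpen (fr i j 1 j) ↔ _
    rw [basicOpen_fr]
    exact ⟨fun h => h.2.2, fun h => ⟨hp, hp', h⟩⟩
  · change p ∈ W ⊓ (Inc k).basicOpen (fr i j i 2) ↔ _
    rw [basicOpen_fr]
    exact ⟨fun h => h.2.2, fun h => ⟨hp, hp', h⟩⟩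
  · change p ∈ W ⊓ (Inc k).basicOpen (fr i j i 3) ↔ _
    rw [basicOpen_fr]
    exact ⟨fun h => h.2.2, fun h => ⟨hp, hp', h⟩⟩

theorem mem_basicOpen_prod {X : Scheme.{u}} {W : X.Opens} (s : Finset (Fin 4))
    (f : Fin 4 → Γ(X, W)) (p : X) :
    p ∈ X.basicOpen (∏ l ∈ s, f l) ↔ p ∈ W ∧ ∀ l ∈ s, p ∈ X.basicOpen (f l) := by
  constructor
  · intro h
    have hp : p ∈ W := X.basicOpen_le _ h
    refine ⟨hp, fun l hl => ?_⟩
    rw [Scheme.mem_basicOpen _ _ p hp, map_prod, IsUnit.prod_iff] at h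
    rw [Scheme.mem_basicOpen _ _ p hp]
    exact h l hl
  · rintro ⟨hp, h⟩
    rw [Scheme.mem_basicOpen _ _ p hp, map_prod, IsUnit.prod_iff]
    intro l hl
    rw [← Scheme.mem_basicOpen _ _ p hp]
    exact h l hl

theorem prop_aux {b0 b1 b2 b3 n02 n03 n12 n13 : Prop} (e02 : n02 ↔ b0 ∧ b2)
    (e03 : n03 ↔ b0 ∧ b3) (e12 : n12 ↔ b1 ∧ b2) (e13 : n13 ↔ b1 ∧ b3) :
    ((n12 ∧ n13) ↔ (b1 ∧ b2 ∧ b3)) ∧ ((n02 ∧ n03) ↔ (b0 ∧ b2 ∧ b3)) ∧
    ((n03 ∧ n13) ↔ (b0 ∧ b1 ∧ b3)) ∧ ((n02 ∧ n12) ↔ (b0 ∧ b1 ∧ b2)) ∧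
    (((n02 ∧ n12) ∧ (n03 ∧ n13)) ↔ (b0 ∧ b1 ∧ b2 ∧ b3)) := by
  tauto

theorem forall_erase (P : Fin 4 → Prop) :
    ((∀ m ∈ Finset.univ.erase (0 : Fin 4), P m) ↔ (P 1 ∧ P 2 ∧ P 3)) ∧
    ((∀ m ∈ Finset.univ.erase (1 : Fin 4), P m) ↔ (P 0 ∧ P 2 ∧ P 3)) ∧
    ((∀ m ∈ Finset.univ.erase (2 : Fin 4), P m) ↔ (P 0 ∧ P 1 ∧ P 3)) ∧
    ((∀ m ∈ Finset.univ.erase (3 : Fin 4), P m) ↔ (P 0 ∧ P 1 ∧ P 2)) ∧
    ((∀ m ∈ (Finset.univ : Finset (Fin 4)), P m) ↔ (P 0 ∧ P 1 ∧ P 2 ∧ P 3)) := by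
  have h0 : Finset.univ.erase (0 : Fin 4) = {1, 2, 3} := by decide
  have h1 : Finset.univ.erase (1 : Fin 4) = {0, 2, 3} := by decide
  have h2 : Finset.univ.erase (2 : Fin 4) = {0, 1, 3} := by decide
  have h3 : Finset.univ.erase (3 : Fin 4) = {0, 1, 2} := by decide
  have h4 : (Finset.univ : Finset (Fin 4)) = {0, 1, 2, 3} := by decide
  rw [h0, h1, h2, h3, h4]
  simp

theorem UT_iff {p : Inc k} {i j : Fin 4} (hp : nz p i j) (l : Fin 4) :
    p ∈ UT k l ↔ ∀ m ∈ Finset.univ.erase l, nb p i j m := by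
  obtain ⟨a0, a1, a2, a3, -⟩ := prop_aux (nz_iff hp 0 2) (nz_iff hp 0 3) (nz_iff hp 1 2)
    (nz_iff hp 1 3)
  obtain ⟨c0, c1, c2, c3, -⟩ := forall_erase (nb p i j)
  match l with
  | 0 => exact (mem_UT_zero p).trans (a0.trans c0.symm)
  | 1 => exact (mem_UT_one p).trans (a1.trans c1.symm)
  | 2 => exact (mem_UT_two p).trans (a2.trans c2.symm)
  | 3 => exact (mem_UT_three p).trans (a3.trans c3.symm)

theorem US_iff {p : Inc k} {i j : Fin 4} (hp : nz p i j) :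
    p ∈ US k ↔ ∀ m ∈ Finset.univ, nb p i j m := by
  obtain ⟨-, -, -, -, a⟩ := prop_aux (nz_iff hp 0 2) (nz_iff hp 0 3) (nz_iff hp 1 2)
    (nz_iff hp 1 3)
  obtain ⟨-, -, -, -, c⟩ := forall_erase (nb p i j)
  exact (mem_US p).trans (a.trans c.symm)

/-- second case: on `D_+(z_ij)` with `i ∈ {2, 3}` -/
theorem loc_of_span {V W : (Inc k).Opens} (hW : W ≤ V) (i j : Fin 4) (hWD : W ≤ Dz k i j)
    (hWa : IsAffineOpen W)
    (hspan : (fb i j i : Γ(Inc k, Dz k i j)) ∈ Ideal.span (fb i j '' {l | l ≠ i}))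
    (m : O (Inc k) (V ⊓ US k)) :
    ∃ n : FSec (Inc k) (UT k) W, psi (Inc k) (UT k) (US k) (US_le_UT k) W n =
      res (inf_le_inf_right (US k) hW) m := by
  refine exists_sum_res_of_mem_span hWa (fun l => resG hWD (fb i j l)) (UT k) (US k) (US_le_UT k)
    ?_ ?_ i ?_ (resG (inf_le_inf_right (US k) hW) m)
  · intro l
    ext p
    rw [SetLike.mem_coe, SetLike.mem_coe, mem_basicOpen_prod]
    constructor
    · rintro ⟨hp, hl⟩
      refine ⟨hp, fun m hm => ?_⟩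
      rw [mem_basicOpen_fb hWD p hp]
      exact (UT_iff (hWD hp) l).mp hl m hm
    · rintro ⟨hp, hl⟩
      refine ⟨hp, (UT_iff (hWD hp) l).mpr fun m hm => ?_⟩
      rw [← mem_basicOpen_fb hWD p hp]
      exact hl m hm
  · ext p
    rw [SetLike.mem_coe, SetLike.mem_coe, mem_basicOpen_prod]
    constructor
    · rintro ⟨hp, hl⟩
      refine ⟨hp, fun m hm => ?_⟩
      rw [mem_basicOpen_fb hWD p hp]
      exact (US_iff (hWD hp)).mp hl m hm
    · rintro ⟨hp, hl⟩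
      refine ⟨hp, (US_iff (hWD hp)).mpr fun m hm => ?_⟩
      rw [← mem_basicOpen_fb hWD p hp]
      exact hl m hm
  · have h := Ideal.mem_map_of_mem (resG hWD) hspan
    rw [Ideal.map_span, ← Set.image_comp] at h
    exact h

theorem locSurj_Inc : LocSurj (Inc k) (UT k) (US k) (US_le_UT k) := by
  intro V m x hx
  obtain ⟨i, j, hij⟩ := exists_nz x
  by_cases h0 : ∃ j', nz x 0 j'
  · obtain ⟨j', hj'⟩ := h0
    exact ⟨V ⊓ Dz k 0 j', inf_le_left, ⟨hx, hj'⟩, loc_of_le inf_le_left 0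
      ((inf_le_inf_right _ inf_le_right).trans (inf_le_US_0 j')) m⟩
  by_cases h1 : ∃ j', nz x 1 j'
  · obtain ⟨j', hj'⟩ := h1
    exact ⟨V ⊓ Dz k 1 j', inf_le_left, ⟨hx, hj'⟩, loc_of_le inf_le_left 1
      ((inf_le_inf_right _ inf_le_right).trans (inf_le_US_1 j')) m⟩
  -- remaining case: `i ∈ {2, 3}`
  have hcov : ∃ W : (Inc k).Opens, IsAffineOpen W ∧ x ∈ W ∧ W ≤ V ⊓ Dz k i j := by
    obtain ⟨W, hW, hxW, hWV⟩ := (Inc k).isBasis_affineOpens.exists_subset_of_mem_open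
      (show x ∈ ((V ⊓ Dz k i j : (Inc k).Opens) : Set (Inc k)) from ⟨hx, hij⟩)
      (V ⊓ Dz k i j).isOpen
    obtain ⟨W', hW', rfl⟩ := hW
    exact ⟨W', hW', hxW, hWV⟩
  obtain ⟨W, hWa, hxW, hWV⟩ := hcov
  have hW1 : W ≤ V := hWV.trans inf_le_left
  have hW2 : W ≤ Dz k i j := hWV.trans inf_le_right
  refine ⟨W, hW1, hxW, ?_⟩
  match i, hij, hW2, hWV with
  | 0, hij, _, _ => exact absurd ⟨j, hij⟩ h0
  | 1, hij, _, _ => exact absurd ⟨j, hij⟩ h1
  | 2, _, hW2, _ => exact loc_of_span hW1 2 j hW2 hWa (fb_mem_span_two j) m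
  | 3, _, hW2, _ => exact loc_of_span hW1 3 j hW2 hWa (fb_mem_span_three j) m

end MP7b9e54
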