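import Pool.Agent.Lib.MP_7b9e54_ag.IncAlg
import Pool.Agent.Lib.MP_7b9e54_ag.IncLocal

/-!
# Non-surjectivity on global sections for the incidence variety
-/

open AlgebraicGeometry CategoryTheory TopologicalSpace Opposite HomogeneousLocalization

universe u

namespace MP7b9e54

variable {k : Type u} [Field k]

theorem away_surj {f : IncRing k} {d : ℕ} (hf : f ∈ incGrading k d) (hd : 0 < d)
    (s : Γ(Inc k, Proj.basicOpen (incGrading k) f)) :
    ∃ (N : ℕ) (a : IncRing k) (ha : a ∈ incGrading k (N • d)),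
      s = Proj.awayToSection (incGrading k) f (Away.mk (incGrading k) hf N a ha) := by
  obtain ⟨w, hw⟩ := (ConcreteCategory.bijective_of_isIso
    (Proj.basicOpenIsoAway (incGrading k) f hf hd).hom).2 s
  obtain ⟨N, a, ha, rfl⟩ := Away.mk_surjective (incGrading k) hf w
  refine ⟨N, a, ha, ?_⟩
  rw [← hw, Proj.basicOpenIsoAway_hom]

theorem away_inj {f : IncRing k} {d : ℕ} (hf : f ∈ incGrading k d) (hd : 0 < d) :
    Function.Injective (Proj.awayToSection (incGrading k) f) := by
  rw [← Proj.basicOpenIsoAway_hom (incGrading k) f hf hd]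
  exact (ConcreteCategory.bijective_of_isIso
    (Proj.basicOpenIsoAway (incGrading k) f hf hd).hom).1

theorem away_res {f g x : IncRing k} {d : ℕ} (hg : g ∈ incGrading k d) (hx : x = f * g)
    (w : Away (incGrading k) f) :
    resG (Proj.basicOpen_mono (incGrading k) _ _ ⟨g, hx⟩) (Proj.awayToSection (incGrading k) f w) =
      Proj.awayToSection (incGrading k) x (awayMap (incGrading k) hg hx w) := by
  have h := Proj.awayMap_awayToSection (incGrading k) hg hx
  exact (ConcreteCategory.congr_hom h w).symm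

/-- The numerator of the section `θ`. -/
noncomputable def thNum (k : Type u) [Field k] (Q : ℕ) : IncRing k :=
  z 0 0 ^ (Q - 1) * z 1 1 ^ (Q - 1) * z 2 2 ^ 2 * (z 0 2 * z 1 3) ^ Q

theorem thNum_mem {Q : ℕ} (hQ : 1 ≤ Q) : thNum k Q ∈ incGrading k (Q • 4) := by
  have h1 := SetLike.pow_mem_graded (Q - 1) (z_mem (k := k) 0 0)
  have h2 := SetLike.pow_mem_graded (Q - 1) (z_mem (k := k) 1 1)
  have h3 := SetLike.pow_mem_graded 2 (z_mem (k := k) 2 2)
  have h4 := SetLike.pow_mem_graded Q (zz_mem (k := k) 0 2 1 3)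
  have h5 := SetLike.mul_mem_graded (SetLike.mul_mem_graded (SetLike.mul_mem_graded h1 h2) h3) h4
  have e : (Q - 1) • 1 + (Q - 1) • 1 + 2 • 1 + Q • 2 = Q • 4 := by
    simp only [smul_eq_mul]
    omega
  rw [e] at h5
  exact h5

/-- ring homs out of a localization -/
theorem lift_mk {R L : Type u} [CommRing R] [CommRing L] (Ψ : R →+* L) (g : R)
    (hg : IsUnit (Ψ g)) (a : R) (n : ℕ) (h : g ^ n ∈ Submonoid.powers g) :
    (IsLocalization.Away.lift (S := Localization.Away g) g hg : Localization.Away g →+* L)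
      (Localization.mk a (⟨g ^ n, h⟩ : Submonoid.powers g)) =
      Ψ a * Ring.inverse (Ψ g) ^ n := by
  set φ : Localization.Away g →+* L := IsLocalization.Away.lift (S := Localization.Away g) g hg
    with hφ
  have h0 : ∀ r : R, φ (algebraMap R (Localization.Away g) r) = Ψ r :=
    fun r => IsLocalization.Away.lift_eq (S := Localization.Away g) g hg r
  have h1 : φ (Localization.mk a (⟨g ^ n, h⟩ : Submonoid.powers g)) * Ψ g ^ n = Ψ a := by
    rw [← map_pow, ← h0 (g ^ n), ← map_mul, ← h0 a, Localization.mk_eq_mk']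
    congr 1
    exact IsLocalization.mk'_spec (Localization.Away g) a (⟨g ^ n, h⟩ : Submonoid.powers g)
  have h2 : Ψ g ^ n * Ring.inverse (Ψ g) ^ n = 1 := by
    rw [← mul_pow, Ring.mul_inverse_cancel _ hg, one_pow]
  rw [← h1, mul_assoc, h2, mul_one]

theorem exists_not_mem (p : ℕ) [Fact p.Prime] [CharP k p] :
    ∃ θ : O (Inc k) (⊤ ⊓ US k), ∀ n : FSec (Inc k) (UT k) ⊤,
      psi (Inc k) (UT k) (US k) (US_le_UT k) ⊤ n ≠ θ := by
  obtain ⟨L, _, Ψ, hΨ, hmain⟩ := exists_test_hom p k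
  have hQ : 1 ≤ p ^ 2 := Nat.one_le_pow _ _ (Fact.out : p.Prime).pos
  refine ⟨resG inf_le_right (Proj.awayToSection (incGrading k) gS
    (Away.mk (incGrading k) gS_mem (p ^ 2) (thNum k (p ^ 2)) (thNum_mem hQ))), fun n hn => ?_⟩
  -- restrict everything to `US`
  have h1 : ∑ l, resG (le_inf le_top le_rfl : US k ≤ ⊤ ⊓ US k)
      (resG (inf_le_inf_left ⊤ (US_le_UT k l)) (n l)) =
      Proj.awayToSection (incGrading k) gS
        (Away.mk (incGrading k) gS_mem (p ^ 2) (thNum k (p ^ 2)) (thNum_mem hQ)) := by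
    have h1 := congrArg (resG (le_inf le_top le_rfl : US k ≤ ⊤ ⊓ US k)) hn
    rw [resG_resG, resG_self] at h1
    rw [← h1]
    exact (map_sum (resG (le_inf le_top le_rfl : US k ≤ ⊤ ⊓ US k)) _ _).symm
  have h2 : ∀ l, ∃ (N : ℕ) (a : IncRing k) (ha : a ∈ incGrading k (N • 2)),
      resG (le_inf le_top le_rfl : UT k l ≤ ⊤ ⊓ UT k l) (n l) =
        Proj.awayToSection (incGrading k) (fT l) (Away.mk (incGrading k) (fT_mem l) N a ha) :=
    fun l => away_surj (fT_mem l) (by norm_num) _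
  choose N a ha hna using h2
  have h3 : ∀ l, resG (le_inf le_top le_rfl : US k ≤ ⊤ ⊓ US k)
      (resG (inf_le_inf_left ⊤ (US_le_UT k l)) (n l)) =
      Proj.awayToSection (incGrading k) gS (awayMap (incGrading k) (gT_mem l) (fT_mul_gT l)
        (Away.mk (incGrading k) (fT_mem l) (N l) (a l) (ha l))) := by
    intro l
    rw [← away_res (gT_mem l) (fT_mul_gT l), ← hna l]
    exact (resG_resG _ _ (n l : Γ(Inc k, ⊤ ⊓ UT k l))).trans
      (resG_resG _ _ (n l : Γ(Inc k, ⊤ ⊓ UT k l))).symm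
  rw [Finset.sum_congr rfl fun l _ => h3 l, ← map_sum] at h1
  have h4 := away_inj gS_mem (by norm_num) h1
  have h5 := congrArg HomogeneousLocalization.val h4
  have h6 : (∑ l, awayMap (incGrading k) (gT_mem l) (fT_mul_gT l)
        (Away.mk (incGrading k) (fT_mem l) (N l) (a l) (ha l))).val =
      ∑ l, (Localization.mk (a l * gT l ^ N l) (⟨gS ^ N l, N l, rfl⟩ :
        Submonoid.powers (gS : IncRing k)) : Localization.Away (gS : IncRing k)) := by
    have h8 : ∀ l, (awayMap (incGrading k) (gT_mem l) (fT_mul_gT l)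
        (Away.mk (incGrading k) (fT_mem l) (N l) (a l) (ha l))).val =
        Localization.mk (a l * gT l ^ N l) (⟨gS ^ N l, N l, rfl⟩ :
          Submonoid.powers (gS : IncRing k)) := fun l => by
      rw [awayMap_mk, Away.val_mk]
    simp only [Fin.sum_univ_four, val_add, h8]
  rw [h6, Away.val_mk] at h5
  have h7 := congrArg (IsLocalization.Away.lift (S := Localization.Away (gS : IncRing k)) gS hΨ) h5
  rw [map_sum, lift_mk] at h7
  refine hmain a N ?_
  rw [← thNum, ← h7]
  refine Finset.sum_congr rfl fun l _ => ?_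
  refine Eq.trans ?_ (lift_mk Ψ gS hΨ (a l * gT l ^ N l) (N l) ⟨N l, rfl⟩).symm
  rw [map_mul, map_pow, mul_assoc, ← mul_pow]
  congr 2
  have hu : Ψ gS = Ψ (fT l) * Ψ (gT l) := by rw [fT_mul_gT l, map_mul]
  have huf : IsUnit (Ψ (fT l)) := by
    rw [hu] at hΨ
    exact isUnit_of_mul_isUnit_left hΨ
  have hug : IsUnit (Ψ (gT l)) := by
    rw [hu] at hΨ
    exact isUnit_of_mul_isUnit_right hΨ
  have e1 : Ψ (gT l) * Ring.inverse (Ψ gS) * Ψ (fT l) = 1 := by
    rw [mul_right_comm, mul_comm (Ψ (gT l)), ← hu, Ring.mul_inverse_cancel _ hΨ]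
  calc Ring.inverse (Ψ (fT l)) = Ψ (gT l) * Ring.inverse (Ψ gS) * Ψ (fT l) *
        Ring.inverse (Ψ (fT l)) := by rw [e1, one_mul]
    _ = _ := by rw [mul_assoc, Ring.mul_inverse_cancel _ huf, mul_one]

end MP7b9e54
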