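import Pool.Agent.Lib.MP_7b9e54_ag.Defs

/-!
# The `𝒟`-module `𝒦 = ker(⨁ 𝒪_{U_l} → 𝒪_S)`
-/

open AlgebraicGeometry CategoryTheory TopologicalSpace Opposite

universe u

namespace MP7b9e54

variable (p : ℕ) (X : Scheme.{u}) {ι : Type} [Fintype ι] (U : ι → X.Opens) (S : X.Opens)
  (hS : ∀ l, S ≤ U l)

/-- sections of `⨁ 𝒪_{U_l}` over `V` -/
abbrev FSec (V : X.Opens) : Type u := ∀ l, O X (V ⊓ U l)

/-- the map `⨁ 𝒪_{U_l} → 𝒪_S` on sections over `V` -/
def psi (V : X.Opens) : FSec X U V →+ O X (V ⊓ S) where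
  toFun m := ∑ l, res (inf_le_inf_left V (hS l)) (m l)
  map_zero' := by simp
  map_add' a b := by simp [Finset.sum_add_distrib]

theorem psi_apply (V : X.Opens) (m : FSec X U V) :
    psi X U S hS V m = ∑ l, res (inf_le_inf_left V (hS l)) (m l) := rfl

/-- restriction for `⨁ 𝒪_{U_l}` -/
def FRes {V W : X.Opens} (h : W ≤ V) : FSec X U V →+ FSec X U W where
  toFun m l := res (inf_le_inf_right _ h) (m l)
  map_zero' := by funext l; simp
  map_add' a b := by funext l; simp

theorem psi_FRes {V W : X.Opens} (h : W ≤ V) (m : FSec X U V) :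
    psi X U S hS W (FRes X U h m) = res (inf_le_inf_right _ h) (psi X U S hS V m) := by
  rw [psi_apply, psi_apply, map_sum]
  refine Finset.sum_congr rfl fun l _ => ?_
  change res _ (res _ (m l)) = _
  rw [res_res, res_res]

/-- sections of `𝒦` over `V` -/
abbrev KSec (V : X.Opens) : Type u := (psi X U S hS V).ker

/-- restriction for `𝒦` -/
def KRes {V W : X.Opens} (h : W ≤ V) : KSec X U S hS V →+ KSec X U S hS W where
  toFun m := ⟨FRes X U h m.1, by
    rw [AddMonoidHom.mem_ker, psi_FRes, m.2, map_zero]⟩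
  map_zero' := by
    apply Subtype.ext
    exact map_zero _
  map_add' a b := by
    apply Subtype.ext
    exact map_add _ _ _

/-- the action of differential operators on sections of `𝒦` -/
instance KSecModule (V : X.Opens) : Module (D p X V) (KSec X U S hS V) where
  smul δ m := ⟨fun l => δ.app (V ⊓ U l) inf_le_left (m.1 l), by
    rw [AddMonoidHom.mem_ker, psi_apply]
    have h2 : δ.app (V ⊓ S) inf_le_left (∑ l, res (inf_le_inf_left V (hS l)) (m.1 l)) = 0 := by
      have := m.2
      rw [AddMonoidHom.mem_ker, psi_apply] at this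
      rw [this, map_zero]
    rw [map_sum] at h2
    rw [← h2]
    refine Finset.sum_congr rfl fun l _ => ?_
    exact (δ.app_res _ _ _ _).symm⟩
  one_smul m := rfl
  mul_smul a b m := rfl
  smul_zero δ := by
    apply Subtype.ext
    funext l
    exact map_zero (δ.app (V ⊓ U l) inf_le_left)
  smul_add δ a b := by
    apply Subtype.ext
    funext l
    exact map_add (δ.app (V ⊓ U l) inf_le_left) _ _
  add_smul δ ε m := rfl
  zero_smul m := rfl

theorem smul_apply {V : X.Opens} (δ : D p X V) (m : KSec X U S hS V) (l : ι) :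
    (δ • m).1 l = δ.app (V ⊓ U l) inf_le_left (m.1 l) := rfl

theorem KRes_apply {V W : X.Opens} (h : W ≤ V) (m : KSec X U S hS V) (l : ι) :
    (KRes X U S hS h m).1 l = res (inf_le_inf_right _ h) (m.1 l) := rfl

/-- the abelian presheaf `𝒦` -/
def KPre : (Opens X)ᵒᵖ ⥤ Ab.{u} where
  obj V := AddCommGrpCat.of (KSec X U S hS V.unop)
  map i := AddCommGrpCat.ofHom (KRes X U S hS i.unop.le)
  map_id V := by
    ext m l
    exact res_self (X := X) (m.1 l)
  map_comp i j := by
    ext m l
    exact (res_res (X := X) _ _ (m.1 l)).symm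

instance (V : (Opens X)ᵒᵖ) : Module ((diffSheaf p X).obj.obj V) ((KPre X U S hS).obj V) :=
  inferInstanceAs (Module (D p X V.unop) (KSec X U S hS V.unop))

/-- the presheaf of modules `𝒦` -/
noncomputable def KPreMod : PresheafOfModules.{u} (diffSheaf p X).obj :=
  PresheafOfModules.ofPresheaf (KPre X U S hS) (by
    intro V W i δ m
    apply Subtype.ext
    funext l
    have := D.app_res (p := p) (X := X) (U := V.unop) δ (inf_le_left : V.unop ⊓ U l ≤ V.unop)
      ((inf_le_left : W.unop ⊓ U l ≤ W.unop).trans i.unop.le) (inf_le_inf_right _ i.unop.le)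
        (m.1 l)
    exact this.symm)

/-- general gluing for intersections with a fixed open set -/
theorem res_glue_inf {κ : Type u} (V : κ → X.Opens) (A : X.Opens) (s : ∀ i, O X (V i ⊓ A))
    (h : ∀ i j, res (inf_le_inf_right A (inf_le_left : V i ⊓ V j ≤ V i)) (s i) =
      res (inf_le_inf_right A (inf_le_right : V i ⊓ V j ≤ V j)) (s j)) :
    ∃ t : O X (iSup V ⊓ A), ∀ i, res (inf_le_inf_right A (le_iSup V i)) t = s i := by
  refine res_glue (fun i => V i ⊓ A) (iSup V ⊓ A) (fun i => inf_le_inf_right A (le_iSup V i))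
    ?_ s ?_
  · rintro x ⟨hx, hxA⟩
    obtain ⟨i, hi⟩ := Opens.mem_iSup.mp hx
    exact Opens.mem_iSup.mpr ⟨i, hi, hxA⟩
  · intro i j
    have hle : V i ⊓ A ⊓ (V j ⊓ A) ≤ V i ⊓ V j ⊓ A :=
      le_inf (le_inf (inf_le_left.trans inf_le_left) (inf_le_right.trans inf_le_left))
        (inf_le_left.trans inf_le_right)
    have := congrArg (res hle) (h i j)
    rw [res_res, res_res] at this
    exact this

theorem res_ext_inf {κ : Type u} (V : κ → X.Opens) (A : X.Opens) (s t : O X (iSup V ⊓ A))
    (h : ∀ i, res (inf_le_inf_right A (le_iSup V i)) s =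
      res (inf_le_inf_right A (le_iSup V i)) t) : s = t := by
  refine res_ext (fun i => V i ⊓ A) (iSup V ⊓ A) (fun i => inf_le_inf_right A (le_iSup V i))
    ?_ s t h
  rintro x ⟨hx, hxA⟩
  obtain ⟨i, hi⟩ := Opens.mem_iSup.mp hx
  exact Opens.mem_iSup.mpr ⟨i, hi, hxA⟩

theorem KPre_isSheaf : TopCat.Presheaf.IsSheaf (KPre X U S hS) := by
  rw [TopCat.Presheaf.isSheaf_iff_isSheafUniqueGluing]
  intro κ V (s : ∀ i, KSec X U S hS (V i)) hs
  have hs' : ∀ i j, KRes X U S hS (inf_le_left : V i ⊓ V j ≤ V i) (s i) =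
    KRes X U S hS (inf_le_right : V i ⊓ V j ≤ V j) (s j) := hs
  have key : ∀ l, ∃ t : O X (iSup V ⊓ U l), ∀ i,
      res (inf_le_inf_right (U l) (le_iSup V i)) t = (s i).1 l := by
    intro l
    refine res_glue_inf X V (U l) (fun i => (s i).1 l) fun i j => ?_
    exact congrArg (fun a : KSec X U S hS (V i ⊓ V j) => a.1 l) (hs' i j)
  choose t ht using key
  have hker : (t : FSec X U (iSup V)) ∈ (psi X U S hS (iSup V)).ker := by
    rw [AddMonoidHom.mem_ker]
    refine res_ext_inf X V S _ _ fun i => ?_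
    rw [← psi_FRes X U S hS (le_iSup V i) t, map_zero]
    have h1 : FRes X U (le_iSup V i) t = (s i).1 := by
      funext l
      exact ht l i
    rw [h1]
    exact (s i).2
  refine ⟨(⟨t, hker⟩ : KSec X U S hS (iSup V)), ?_, ?_⟩
  · intro i
    change KRes X U S hS (le_iSup V i) ⟨t, hker⟩ = s i
    apply Subtype.ext
    funext l
    exact ht l i
  · intro (t' : KSec X U S hS (iSup V)) ht'
    have ht'' : ∀ i, KRes X U S hS (le_iSup V i) t' = s i := ht'
    change t' = ⟨t, hker⟩
    apply Subtype.ext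
    funext l
    refine res_ext_inf X V (U l) _ _ fun i => ?_
    rw [ht l i, ← ht'' i]
    rfl

/-- The `𝒟_X`-module `𝒦`. -/
noncomputable def KMod : DMod p X where
  val := KPreMod p X U S hS
  isSheaf := KPre_isSheaf X U S hS

end MP7b9e54
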