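import Mathlib

/-! # The grading of a quotient of a graded algebra by homogeneous elements -/

universe u v

namespace MP7b9e54

open DirectSum

variable {k : Type u} [CommRing k] {A : Type v} [CommRing A] [Algebra k A]
  (𝒜 : ℕ → Submodule k A) (I : Ideal A)

/-- The degree `n` part of `A ⧸ I`: the image of the degree `n` part of `A`. -/
def quotGrading (n : ℕ) : Submodule k (A ⧸ I) :=
  (𝒜 n).map (Ideal.Quotient.mkₐ k I).toLinearMap

theorem mk_mem_quotGrading {n : ℕ} {a : A} (h : a ∈ 𝒜 n) :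
    Ideal.Quotient.mk I a ∈ quotGrading 𝒜 I n := ⟨a, h, rfl⟩

variable [GradedAlgebra 𝒜]

instance quotGrading_gradedMonoid : SetLike.GradedMonoid (quotGrading 𝒜 I) where
  one_mem := ⟨1, SetLike.GradedOne.one_mem, rfl⟩
  mul_mem := by
    rintro i j _ _ ⟨a, ha, rfl⟩ ⟨b, hb, rfl⟩
    exact ⟨a * b, SetLike.GradedMul.mul_mem ha hb, rfl⟩

/-- the map `𝒜 n → ⨁ (quotGrading n)` -/
noncomputable def quotPiece (n : ℕ) : 𝒜 n →ₗ[k] ⨁ i, quotGrading 𝒜 I i :=
  (DirectSum.lof k ℕ (fun i => quotGrading 𝒜 I i) n).comp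
    (LinearMap.codRestrict (quotGrading 𝒜 I n)
      ((Ideal.Quotient.mkₐ k I).toLinearMap.comp (𝒜 n).subtype)
      (fun a => ⟨a.1, a.2, rfl⟩))

omit [GradedAlgebra 𝒜] in
theorem quotPiece_apply (n : ℕ) (a : 𝒜 n) :
    quotPiece 𝒜 I n a = DirectSum.of (fun i => quotGrading 𝒜 I i) n
      ⟨Ideal.Quotient.mk I a.1, mk_mem_quotGrading 𝒜 I a.2⟩ := rfl

theorem quotPiece_one :
    quotPiece 𝒜 I 0 (GradedMonoid.GOne.one (A := fun i => 𝒜 i)) = 1 := rfl

theorem quotPiece_mul {i j : ℕ} (a : 𝒜 i) (b : 𝒜 j) :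
    quotPiece 𝒜 I (i + j) (GradedMonoid.GMul.mul (A := fun i => 𝒜 i) a b) = quotPiece 𝒜 I i a * quotPiece 𝒜 I j b := by
  rw [quotPiece_apply, quotPiece_apply, quotPiece_apply, DirectSum.of_mul_of]
  rfl

/-- the algebra map `A → ⨁ (quotGrading n)` -/
noncomputable def quotDec : A →ₐ[k] ⨁ i, quotGrading 𝒜 I i :=
  (DirectSum.toAlgebra k (fun i => 𝒜 i) (quotPiece 𝒜 I) (quotPiece_one 𝒜 I)
    (quotPiece_mul 𝒜 I)).comp (DirectSum.decomposeAlgEquiv 𝒜).toAlgHom

theorem quotDec_of_mem {n : ℕ} {a : A} (h : a ∈ 𝒜 n) :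
    quotDec 𝒜 I a = DirectSum.of (fun i => quotGrading 𝒜 I i) n
      ⟨Ideal.Quotient.mk I a, mk_mem_quotGrading 𝒜 I h⟩ := by
  change DirectSum.toAlgebra k (fun i => 𝒜 i) (quotPiece 𝒜 I) (quotPiece_one 𝒜 I)
    (quotPiece_mul 𝒜 I) (decompose 𝒜 a) = _
  rw [decompose_of_mem 𝒜 h]
  exact DirectSum.toSemiring_of (A := fun i => 𝒜 i) (fun i => (quotPiece 𝒜 I i).toAddMonoidHom)
    (quotPiece_one 𝒜 I) (quotPiece_mul 𝒜 I) n (⟨a, h⟩ : 𝒜 n)

/-- If `I` is generated by homogeneous elements then `A ⧸ I` is graded by the images of the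
graded pieces of `A`. -/
@[reducible]
noncomputable def quotGradedAlgebra (G : Set A) (hG : ∀ g ∈ G, ∃ n, g ∈ 𝒜 n)
    (hI : I = Ideal.span G) : GradedAlgebra (quotGrading 𝒜 I) :=
  GradedAlgebra.ofAlgHom (quotGrading 𝒜 I)
    (Ideal.Quotient.liftₐ I (quotDec 𝒜 I) (by
      intro a ha
      have : Ideal.span G ≤ RingHom.ker (quotDec 𝒜 I : A →+* ⨁ i, quotGrading 𝒜 I i) := by
        rw [Ideal.span_le]
        intro g hg
        obtain ⟨n, hn⟩ := hG g hg
        change quotDec 𝒜 I g = 0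
        rw [quotDec_of_mem 𝒜 I hn]
        have h0 : (⟨Ideal.Quotient.mk I g, mk_mem_quotGrading 𝒜 I hn⟩ : quotGrading 𝒜 I n) = 0 := by
          apply Subtype.ext
          change Ideal.Quotient.mk I g = 0
          rw [Ideal.Quotient.eq_zero_iff_mem, hI]
          exact Ideal.subset_span hg
        rw [h0, map_zero]
      exact this (hI ▸ ha)))
    (by
      apply Ideal.Quotient.algHom_ext
      apply AlgHom.ext
      intro a
      change (DirectSum.coeAlgHom (quotGrading 𝒜 I)) (quotDec 𝒜 I a) = Ideal.Quotient.mk I a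
      induction a using DirectSum.Decomposition.inductionOn 𝒜 with
      | zero => rw [map_zero, map_zero, map_zero]
      | homogeneous m =>
        rw [quotDec_of_mem 𝒜 I m.2, DirectSum.coeAlgHom_of]
      | add a b ha hb => rw [map_add, map_add, ha, hb, map_add])
    (by
      rintro n ⟨_, a, ha, rfl⟩
      change quotDec 𝒜 I a = _
      exact quotDec_of_mem 𝒜 I ha)

end MP7b9e54
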